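import Pool.Agent.Helper43.CH.Model

/-! Project CHI, additive version. The field `O(x, y, w)`,
`y ^ 2 = x ^ 3 + A(L(w)) x + B(L(w))`, its homomorphisms. -/

set_option autoImplicit false

namespace Pool.Agent.Helper73.CHA

open IntermediateField Polynomial Pool.Agent.Helper43.CH

/-- `E = O(x, y, w)`, where `x`, `w` are algebraically independent and
`y ^ 2 = x ^ 3 + A(L(w)) * x + B(L(w))`. -/
structure IsModelL (O : Type) {E : Type} [Field O] [Field E] [Algebra O E] (L A B : O[X])
    (x y w : E) : Prop where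
  ind : AlgebraicIndependent O ![x, w]
  eqn : y ^ 2 = x ^ 3 + aeval (aeval w L) A * x + aeval (aeval w L) B
  gen : adjoin O {x, y, w} = ⊤

/-- `E = O(x, y, w)`, where `x`, `w` are algebraically independent and
`y ^ 2 = x ^ 3 + A(w ^ p - w) * x + B(w ^ p - w)`. -/
structure IsModelA (O : Type) {E : Type} [Field O] [Field E] [Algebra O E] (p : ℕ)
    (A B : O[X]) (x y w : E) : Prop where
  ind : AlgebraicIndependent O ![x, w]
  eqn : y ^ 2 = x ^ 3 + aeval (w ^ p - w) A * x + aeval (w ^ p - w) B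
  gen : adjoin O {x, y, w} = ⊤

section

variable {O E F : Type} [Field O] [Field E] [Algebra O E] [Field F] [Algebra O F]

theorem aeval_as (p : ℕ) (w : E) : aeval w (X ^ p - X : O[X]) = w ^ p - w := by
  rw [map_sub, map_pow, aeval_X]

theorem IsModelA.toL {p : ℕ} {A B : O[X]} {x y w : E} (h : IsModelA O p A B x y w) :
    IsModelL O (X ^ p - X) A B x y w :=
  ⟨h.ind, by rw [aeval_as]; exact h.eqn, h.gen⟩

/-- the right hand side of the equation -/
noncomputable def cubL (L A B : O[X]) : MvPolynomial (Fin 2) O :=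
  MvPolynomial.X 0 ^ 3 + aeval (aeval (MvPolynomial.X 1 : MvPolynomial (Fin 2) O) L) A *
    MvPolynomial.X 0 + aeval (aeval (MvPolynomial.X 1 : MvPolynomial (Fin 2) O) L) B

theorem aeval_cubL (L A B : O[X]) (x w : E) : MvPolynomial.aeval ![x, w] (cubL L A B) =
    x ^ 3 + aeval (aeval w L) A * x + aeval (aeval w L) B := by
  have h1 : MvPolynomial.aeval ![x, w] (aeval (MvPolynomial.X 1 : MvPolynomial (Fin 2) O) L) =
      aeval w L := by
    rw [← aeval_algHom_apply, MvPolynomial.aeval_X]
    rfl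
  have h2 : ∀ G : O[X], MvPolynomial.aeval ![x, w]
      (aeval (aeval (MvPolynomial.X 1 : MvPolynomial (Fin 2) O) L) G) =
      aeval (aeval w L) G := by
    intro G
    rw [← aeval_algHom_apply, h1]
  rw [cubL, map_add, map_add, map_mul, map_pow, MvPolynomial.aeval_X, h2, h2]
  rfl

theorem not_sqL (L A B : O[X]) (p q : MvPolynomial (Fin 2) O) (hq : q ≠ 0) :
    p ^ 2 ≠ cubL L A B * q ^ 2 := by
  intro h
  obtain ⟨f, h3, h4⟩ : ∃ f : MvPolynomial (Fin 2) O ≃ₐ[O] (MvPolynomial (Fin 1) O)[X],
      f (MvPolynomial.X 0) = X ∧ f (MvPolynomial.X 1) = C (MvPolynomial.X 0) :=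
    ⟨MvPolynomial.finSuccEquiv O 1, MvPolynomial.finSuccEquiv_X_zero,
      MvPolynomial.finSuccEquiv_X_succ (j := (0 : Fin 1))⟩
  have h1 := congrArg f h
  rw [map_pow, map_mul, map_pow] at h1
  have h8 : f (aeval (MvPolynomial.X 1 : MvPolynomial (Fin 2) O) L) =
      C (aeval (MvPolynomial.X 0 : MvPolynomial (Fin 1) O) L) := by
    have h6 := aeval_algHom_apply f.toAlgHom (MvPolynomial.X 1 : MvPolynomial (Fin 2) O) L
    have h7 := aeval_algebraMap_apply ((MvPolynomial (Fin 1) O)[X])
      (MvPolynomial.X 0 : MvPolynomial (Fin 1) O) L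
    change aeval (f (MvPolynomial.X 1)) L = f (aeval _ L) at h6
    rw [← h6, h4]
    exact h7
  have h5 : ∀ G : O[X], f (aeval (aeval (MvPolynomial.X 1 : MvPolynomial (Fin 2) O) L) G) =
      C (aeval (aeval (MvPolynomial.X 0 : MvPolynomial (Fin 1) O) L) G) := by
    intro G
    have h6 := aeval_algHom_apply f.toAlgHom
      (aeval (MvPolynomial.X 1 : MvPolynomial (Fin 2) O) L) G
    have h7 := aeval_algebraMap_apply ((MvPolynomial (Fin 1) O)[X])
      (aeval (MvPolynomial.X 0 : MvPolynomial (Fin 1) O) L) G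
    change aeval (f (aeval (MvPolynomial.X 1 : MvPolynomial (Fin 2) O) L)) G = f (aeval _ G) at h6
    rw [← h6, h8]
    exact h7
  have h2 : f (cubL L A B) = X ^ 3 +
      C (aeval (aeval (MvPolynomial.X 0 : MvPolynomial (Fin 1) O) L) A) * X
      + C (aeval (aeval (MvPolynomial.X 0 : MvPolynomial (Fin 1) O) L) B) := by
    rw [cubL, map_add, map_add, map_mul, map_pow, h3, h5, h5]
  have h3 : (f (cubL L A B)).natDegree = 3 := by
    rw [h2]
    compute_degree!
  have hq' : f q ≠ 0 := (_root_.map_ne_zero_iff f f.injective).2 hq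
  have hG : f (cubL L A B) ≠ 0 := by
    intro h0
    rw [h0, natDegree_zero] at h3
    omega
  have h4 := congrArg natDegree h1
  rw [natDegree_pow, natDegree_mul hG (pow_ne_zero 2 hq'), natDegree_pow, h3] at h4
  omega

theorem IsModelL.gen' {L A B : O[X]} {x y w : E} (h : IsModelL O L A B x y w) :
    adjoin O (insert y (Set.range ![x, w])) = ⊤ := by
  have h1 : insert y (Set.range ![x, w]) = {x, y, w} := by
    ext z
    simp only [Matrix.range_cons, Matrix.range_empty, Set.union_empty, Set.mem_insert_iff,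
      Set.mem_union, Set.mem_singleton_iff]
    tauto
  rw [h1, h.gen]

/-- homomorphisms -/
theorem IsModelL.exists_hom {L A B : O[X]} {x y w : E} (h : IsModelL O L A B x y w)
    {x' y' w' : F} (hi : AlgebraicIndependent O ![x', w'])
    (he : y' ^ 2 = x' ^ 3 + aeval (aeval w' L) A * x' + aeval (aeval w' L) B) :
    ∃ φ : E →ₐ[O] F, φ x = x' ∧ φ y = y' ∧ φ w = w' := by
  obtain ⟨φ, h1, h2⟩ := Pool.Agent.Helper43.CH.exists_hom (cubL L A B) (not_sqL L A B) h.ind
    (by rw [h.eqn, aeval_cubL]) h.gen' hi (by rw [he, aeval_cubL])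
  exact ⟨φ, h1 0, h2, h1 1⟩

/-- two homomorphisms which agree on the generators -/
theorem IsModelL.ext {L A B : O[X]} {x y w : E} (h : IsModelL O L A B x y w)
    {φ ψ : E →ₐ[O] F} (hx : φ x = ψ x) (hy : φ y = ψ y) (hw : φ w = ψ w) : φ = ψ := by
  apply AlgHom.ext
  intro z
  have hz : z ∈ adjoin O {x, y, w} := by rw [h.gen]; trivial
  induction hz using adjoin_induction with
  | mem z hz =>
    rcases hz with rfl | rfl | rfl
    · exact hx
    · exact hy
    · exact hw
  | algebraMap c => rw [AlgHom.commutes, AlgHom.commutes]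
  | add x y _ _ hx hy => rw [map_add, map_add, hx, hy]
  | inv x _ hx => rw [map_inv₀, map_inv₀, hx]
  | mul x y _ _ hx hy => rw [map_mul, map_mul, hx, hy]

/-- independent elements of the field `O(x, y, w)` -/
theorem IsModelL.indep {L A B : O[X]} {x y w : E} (h : IsModelL O L A B x y w) {x' w' : E}
    (hx : IsAlgebraic (adjoin O {x', w'}) x) (hw : IsAlgebraic (adjoin O {x', w'}) w) :
    AlgebraicIndependent O ![x', w'] := by
  have hr : Set.range ![x', w'] = {x', w'} := by
    ext z
    simp only [Matrix.range_cons, Matrix.range_empty, Set.union_empty, Set.mem_insert_iff,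
      Set.mem_union, Set.mem_singleton_iff]
  refine indep_of_algebraic h.ind h.gen ?_
  rw [hr]
  have key : y ∈ algebraicClosure (adjoin O {x', w'}) E := by
    rw [mem_algebraicClosure_iff]
    apply IsAlgebraic.of_pow (n := 2) (by norm_num)
    rw [← mem_algebraicClosure_iff] at hx hw ⊢
    have hp' : ∀ (G : O[X]) (v : E), v ∈ algebraicClosure (adjoin O {x', w'}) E →
        aeval v G ∈ algebraicClosure (adjoin O {x', w'}) E := by
      intro G v hv
      rw [aeval_eq_sum_range]
      refine sum_mem fun i _ => ?_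
      rw [Algebra.smul_def, IsScalarTower.algebraMap_apply O (adjoin O {x', w'}) E]
      exact mul_mem (IntermediateField.algebraMap_mem _ _) (pow_mem hv i)
    have hL := hp' L w hw
    rw [h.eqn]
    exact add_mem (add_mem (pow_mem hx 3) (mul_mem (hp' A _ hL) hx)) (hp' B _ hL)
  rintro z (rfl | rfl | rfl)
  · exact hx
  · exact mem_algebraicClosure_iff.1 key
  · exact hw

/-- homomorphisms -/
theorem IsModelA.exists_hom {p : ℕ} {A B : O[X]} {x y w : E} (h : IsModelA O p A B x y w)
    {x' y' w' : F} (hi : AlgebraicIndependent O ![x', w'])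
    (he : y' ^ 2 = x' ^ 3 + aeval (w' ^ p - w') A * x' + aeval (w' ^ p - w') B) :
    ∃ φ : E →ₐ[O] F, φ x = x' ∧ φ y = y' ∧ φ w = w' :=
  h.toL.exists_hom hi (by rw [aeval_as]; exact he)

/-- two homomorphisms which agree on the generators -/
theorem IsModelA.ext {p : ℕ} {A B : O[X]} {x y w : E} (h : IsModelA O p A B x y w)
    {φ ψ : E →ₐ[O] F} (hx : φ x = ψ x) (hy : φ y = ψ y) (hw : φ w = ψ w) : φ = ψ :=
  h.toL.ext hx hy hw

/-- independent elements of the field `O(x, y, w)` -/
theorem IsModelA.indep {p : ℕ} {A B : O[X]} {x y w : E} (h : IsModelA O p A B x y w) {x' w' : E}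
    (hx : IsAlgebraic (adjoin O {x', w'}) x) (hw : IsAlgebraic (adjoin O {x', w'}) w) :
    AlgebraicIndependent O ![x', w'] :=
  h.toL.indep hx hw

end

end Pool.Agent.Helper73.CHA
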