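import Pool.Agent.Helper73.QX.Root

/-! Project CHI, additive version. The linear forms of the finite field with `p ^ j` elements over
the prime field are `v ↦ ∑ (c v) ^ p ^ i`. -/

set_option autoImplicit false

namespace Pool.Agent.Helper73.CHA

open Polynomial Pool.Agent.Helper73.QX

section

variable (p : ℕ) [hp : Fact p.Prime] (O : Type) [Field O] [Algebra (ZMod p) O] (j : ℕ)

/-- the finite field in `O` -/
def FQ : Submodule (ZMod p) O where
  carrier := {v | v ^ p ^ j = v}
  add_mem' := by
    intro a b ha hb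
    have := charP_of p O O
    rw [Set.mem_ofPred_eq] at ha hb ⊢
    rw [add_pow_char_pow, ha, hb]
  zero_mem' := zero_pow (pow_ne_zero _ hp.out.ne_zero)
  smul_mem' := by
    intro c a ha
    rw [Set.mem_ofPred_eq] at ha ⊢
    rw [Algebra.smul_def, mul_pow, ha]
    congr 1
    exact em_pow' p O O c j

variable {p O j}

theorem mem_FQ {v : O} : v ∈ FQ p O j ↔ v ^ p ^ j = v := Iff.rfl

theorem mul_FQ {v c : O} (hv : v ∈ FQ p O j) (hc : c ∈ FQ p O j) : c * v ∈ FQ p O j := by
  rw [mem_FQ] at hv hc ⊢
  rw [mul_pow, hv, hc]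

variable (p O j)

theorem card_FQ [IsAlgClosed O] (hj : 0 < j) : Nat.card (FQ p O j) = p ^ j := by
  have := charP_of p O O
  have hsep : (X ^ p ^ j - X : O[X]).Separable :=
    galois_poly_separable p _ (dvd_pow_self p hj.ne')
  have h1 := Polynomial.card_rootSet_eq_natDegree (K := O) hsep (IsAlgClosed.splits _)
  rw [FiniteField.X_pow_card_pow_sub_X_natDegree_eq O hj.ne' hp.out.one_lt] at h1
  rw [← h1, ← Nat.card_eq_fintype_card]
  refine Nat.card_congr (Equiv.subtypeEquivRight fun v => ?_)
  have hne : (X ^ p ^ j - X : O[X]) ≠ 0 :=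
    FiniteField.X_pow_card_pow_sub_X_ne_zero O hj.ne' hp.out.one_lt
  rw [mem_rootSet]
  constructor
  · intro h
    refine ⟨hne, ?_⟩
    rw [map_sub, map_pow, aeval_X]
    exact sub_eq_zero.2 h
  · rintro ⟨-, h⟩
    rw [map_sub, map_pow, aeval_X] at h
    exact sub_eq_zero.1 h

/-- the trace -/
def tr {E : Type} [Field E] (p j : ℕ) (z : E) : E := ∑ i ∈ Finset.range j, z ^ p ^ i

theorem tr_add {E : Type} [Field E] [CharP E p] (z z' : E) :
    tr p j (z + z') = tr p j z + tr p j z' := by
  unfold tr
  rw [← Finset.sum_add_distrib]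
  exact Finset.sum_congr rfl fun i _ => by rw [add_pow_char_pow]

theorem tr_sub {E : Type} [Field E] [CharP E p] (z z' : E) :
    tr p j (z - z') = tr p j z - tr p j z' := by
  unfold tr
  rw [← Finset.sum_sub_distrib]
  exact Finset.sum_congr rfl fun i _ => by rw [sub_pow_char_pow]

theorem tr_map {E F : Type} [Field E] [Field F] (g : E →+* F) (z : E) :
    g (tr p j z) = tr p j (g z) := by
  unfold tr
  rw [map_sum]
  exact Finset.sum_congr rfl fun i _ => map_pow _ _ _

/-- `tr z ^ p - tr z = z ^ Q - z` -/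
theorem tr_pow {E : Type} [Field E] [CharP E p] (z : E) :
    tr p j z ^ p - tr p j z = z ^ p ^ j - z := by
  unfold tr
  rw [sum_pow_char]
  have h1 : ∑ i ∈ Finset.range j, (z ^ p ^ i) ^ p = ∑ i ∈ Finset.range j, z ^ p ^ (i + 1) :=
    Finset.sum_congr rfl fun i _ => by rw [← pow_mul, pow_succ]
  rw [h1]
  have h2 := Finset.sum_range_succ (fun i => z ^ p ^ i) j
  have h3 := Finset.sum_range_succ' (fun i => z ^ p ^ i) j
  rw [h2] at h3
  rw [pow_zero, pow_one] at h3
  linear_combination -h3

variable {p O j}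

theorem exists_phi (c : FQ p O j) : ∃ l : FQ p O j →ₗ[ZMod p] ZMod p, ∀ v : FQ p O j,
    em p O O (l v) = tr p j ((c : O) * v) := by
  have := charP_of p O O
  have h1 : ∀ v : FQ p O j, ∃ e : ZMod p, tr p j ((c : O) * v) = em p O O e := by
    intro v
    apply exists_em p O
    have h2 := tr_pow p j ((c : O) * v)
    have h3 : ((c : O) * v) ^ p ^ j = c * v := mul_FQ v.2 c.2
    rw [h3, sub_self] at h2
    exact sub_eq_zero.1 h2
  choose f hf using h1
  let g : FQ p O j →+ ZMod p :=
    { toFun := f
      map_zero' := by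
        apply em_injective p O O
        rw [← hf, map_zero]
        show tr p j ((c : O) * 0) = 0
        rw [mul_zero]
        have h2 := tr_sub p j (0 : O) 0
        rw [sub_self, sub_self] at h2
        exact h2
      map_add' := fun v v' => by
        apply em_injective p O O
        rw [map_add, ← hf, ← hf, ← hf]
        show tr p j ((c : O) * (v + v')) = _
        rw [mul_add, tr_add] }
  exact ⟨g.toZModLinearMap p, fun v => (hf v).symm⟩

/-- the trace form is not zero -/
theorem exists_tr_ne [IsAlgClosed O] (hj : 0 < j) {c : O} (hc : c ∈ FQ p O j) (hc0 : c ≠ 0) :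
    ∃ v ∈ FQ p O j, tr p j (c * v) ≠ 0 := by
  by_contra hcon
  push Not at hcon
  have := charP_of p O O
  -- the polynomial `∑ X ^ p ^ i`
  have hcard := card_FQ p O j hj
  have hfin : Finite (FQ p O j) := Nat.finite_of_card_ne_zero (by
    rw [hcard]
    exact pow_ne_zero _ hp.out.ne_zero)
  obtain ⟨P, hP⟩ : ∃ P : O[X], P = ∑ i ∈ Finset.range j, X ^ p ^ i := ⟨_, rfl⟩
  have hev : ∀ z, eval z P = tr p j z := by
    intro z
    rw [hP, eval_finsetSum]
    exact Finset.sum_congr rfl fun i _ => by rw [eval_pow, eval_X]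
  have hcoef : P.coeff (p ^ 0) = 1 := by
    rw [hP, finsetSum_coeff, Finset.sum_eq_single 0]
    · rw [coeff_X_pow, if_pos rfl]
    · intro i _ hi
      rw [coeff_X_pow, if_neg]
      intro h
      exact hi (Nat.pow_right_injective hp.out.two_le h).symm
    · intro h
      exact absurd (Finset.mem_range.2 hj) h
  have hP0 : P ≠ 0 := by
    rintro rfl
    rw [coeff_zero] at hcoef
    exact zero_ne_one hcoef
  have hdeg : P.natDegree ≤ p ^ (j - 1) := by
    rw [hP]
    refine natDegree_sum_le_of_forall_le _ _ fun i hi => ?_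
    rw [natDegree_X_pow]
    refine Nat.pow_le_pow_right hp.out.pos ?_
    have := Finset.mem_range.1 hi
    omega
  -- it has too many zeros
  classical
  have : Fintype (FQ p O j) := Fintype.ofFinite _
  have hroots : (Finset.univ.image fun v : FQ p O j => c * (v : O)) ⊆ P.roots.toFinset := by
    intro z hz
    obtain ⟨v, -, rfl⟩ := Finset.mem_image.1 hz
    rw [Multiset.mem_toFinset, mem_roots hP0, IsRoot.def, hev]
    exact hcon v v.2
  have h1 := Finset.card_le_card hroots
  rw [Finset.card_image_of_injective _ (fun v v' h =>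
    Subtype.ext (mul_left_cancel₀ hc0 h)), Finset.card_univ, ← Nat.card_eq_fintype_card, hcard] at h1
  have h2 := (h1.trans (Multiset.toFinset_card_le _)).trans (card_roots' P)
  have h3 := h2.trans hdeg
  have h4 : p ^ (j - 1) < p ^ j := Nat.pow_lt_pow_right hp.out.one_lt (by omega)
  omega

/-- **All linear forms are of this form.** -/
theorem exists_form [IsAlgClosed O] (hj : 0 < j) (l : FQ p O j →ₗ[ZMod p] ZMod p) :
    ∃ c ∈ FQ p O j, ∀ v : FQ p O j, em p O O (l v) = tr p j (c * v) := by
  have := charP_of p O O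
  have hcard := card_FQ p O j hj
  have hfin : Finite (FQ p O j) := Nat.finite_of_card_ne_zero (by
    rw [hcard]
    exact pow_ne_zero _ hp.out.ne_zero)
  have hfd : Module.Finite (ZMod p) (FQ p O j) := Module.Finite.of_finite
  have hfd' : Module.Finite (ZMod p) (FQ p O j →ₗ[ZMod p] ZMod p) := inferInstance
  have hfin' : Finite (FQ p O j →ₗ[ZMod p] ZMod p) := Module.finite_of_finite (ZMod p)
  choose Φ hΦ using exists_phi (p := p) (O := O) (j := j)
  have hinj : Function.Injective Φ := by
    intro c c' h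
    by_contra hne
    have h0 : ((c - c' : FQ p O j) : O) ≠ 0 := by
      intro h1
      apply hne
      exact sub_eq_zero.1 (Subtype.ext h1)
    obtain ⟨v, hv, hv'⟩ := exists_tr_ne hj (c - c' : FQ p O j).2 h0
    apply hv'
    have h1 := hΦ c ⟨v, hv⟩
    have h2 := hΦ c' ⟨v, hv⟩
    rw [h] at h1
    show tr p j (((c : O) - c') * v) = 0
    rw [sub_mul, tr_sub, ← h1, ← h2, sub_self]
  have hcc : Nat.card (FQ p O j) = Nat.card (FQ p O j →ₗ[ZMod p] ZMod p) := by
    rw [Module.natCard_eq_pow_finrank (K := ZMod p), Module.natCard_eq_pow_finrank (K := ZMod p)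
      (V := FQ p O j →ₗ[ZMod p] ZMod p)]
    congr 1
    exact (Subspace.dual_finrank_eq (K := ZMod p) (V := FQ p O j)).symm
  have hsurj : Function.Surjective Φ :=
    ((Nat.bijective_iff_injective_and_card Φ).2 ⟨hinj, hcc⟩).2
  obtain ⟨c, rfl⟩ := hsurj l
  exact ⟨c, c.2, fun v => hΦ c v⟩

end

end Pool.Agent.Helper73.CHA
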