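import Pool.Agent.Helper73.CHA.Psi
import Pool.Agent.Helper73.CHA.Dual
import Pool.Agent.Helper73.QW.Gal
import Pool.Agent.Helper75.WC.Prim
import Pool.Agent.Helper43.AC7.Defs

/-! Project CHI, additive version. The field `K = O(x, y, w)`,
`y ^ 2 = x ^ 3 + A(w ^ Q - w) x + B(w ^ Q - w)`, `Q = p ^ j`, is an abelian extension of
`R = O(x, y, w ^ Q - w)`, and the cyclic extensions `M ≠ R` of `R` in `K` are the fields `O(x, y, w')`,
`w' ^ p - w' = c (w ^ Q - w)`, `c ^ Q = c`. -/

set_option autoImplicit false

namespace Pool.Agent.Helper73.CHA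

open IntermediateField Polynomial Pool.Agent.Helper43.CH Pool.Agent.Helper43.AC7
  Pool.Agent.Helper73.QX

section

variable {p : ℕ} [hp : Fact p.Prime] {O : Type} [Field O] [Algebra (ZMod p) O] [IsAlgClosed O]
  {j : ℕ}

theorem fq_algebraic (hj : 0 < j) {E : Type} [Field E] [Algebra O E] {d : E} (hd : d ^ p ^ j = d) :
    ∃ v : FQ p O j, algebraMap O E v = d := by
  have := charP_of p O O
  have h1 : aeval d (X ^ p ^ j - X : O[X]) = 0 := by
    rw [map_sub, map_pow, aeval_X, hd, sub_self]
  have hint : IsIntegral O d := isAlgebraic_iff_isIntegral.1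
    ⟨_, FiniteField.X_pow_card_pow_sub_X_ne_zero O hj.ne' hp.out.one_lt, h1⟩
  have hmem : d ∈ IntermediateField.adjoin O {d} := IntermediateField.mem_adjoin_simple_self O _
  have := IntermediateField.isAlgebraic_adjoin_simple hint
  rw [IntermediateField.eq_bot_of_isAlgClosed_of_isAlgebraic (IntermediateField.adjoin O {d}),
    IntermediateField.mem_bot] at hmem
  obtain ⟨v, hv⟩ := hmem
  refine ⟨⟨v, ?_⟩, hv⟩
  apply (algebraMap O E).injective
  rw [map_pow, hv, hd]

/-- the data of the extension -/
structure Ext (p j : ℕ) {O K : Type} [Field O] [Field K] [Algebra O K] (A B : O[X]) (x y w : K) :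
    Prop where
  model : IsModelL O (X ^ p ^ j - X) A B x y w
  pos : 0 < j

variable {K : Type} [Field K] [Algebra O K] {A B : O[X]} {x y w : K}

/-- the base -/
def base (p j : ℕ) (O : Type) [Field O] {K : Type} [Field K] [Algebra O K] (x y w : K) :
    IntermediateField O K := adjoin O {x, y, w ^ p ^ j - w}

omit hp [Algebra (ZMod p) O] [IsAlgClosed O] in
theorem x_mem : x ∈ base p j O x y w := subset_adjoin _ _ (by simp)

omit hp [Algebra (ZMod p) O] [IsAlgClosed O] in
theorem y_mem : y ∈ base p j O x y w := subset_adjoin _ _ (by simp)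

omit hp [Algebra (ZMod p) O] [IsAlgClosed O] in
theorem u_mem : w ^ p ^ j - w ∈ base p j O x y w := subset_adjoin _ _ (by simp)

omit hp [Algebra (ZMod p) O] [IsAlgClosed O] in
theorem Ext.top (h : Ext p j A B x y w) : adjoin (base p j O x y w) {w} = ⊤ := by
  rw [eq_top_iff]
  intro z _
  have h1 : adjoin O {x, y, w} ≤ (adjoin (base p j O x y w) {w}).restrictScalars O := by
    rw [adjoin_le_iff]
    rintro v (rfl | rfl | rfl)
    · exact (adjoin (base p j O _ y w) {w}).algebraMap_mem ⟨_, x_mem⟩
    · exact (adjoin (base p j O x _ w) {w}).algebraMap_mem ⟨_, y_mem⟩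
    · exact mem_adjoin_simple_self (base p j O x y _) _
  apply h1
  rw [h.model.gen]
  exact mem_top

/-- **`K` is a finite Galois extension of `R`.** -/
theorem Ext.galois (h : Ext p j A B x y w) :
    FiniteDimensional (base p j O x y w) K ∧ IsGalois (base p j O x y w) K := by
  classical
  have hcK := charP_of p O K
  have hcR : CharP (base p j O x y w) p := charP_of p O _
  obtain ⟨R, hR⟩ : ∃ R : IntermediateField O K, R = base p j O x y w := ⟨_, rfl⟩
  have hu : w ^ p ^ j - w ∈ R := by rw [hR]; exact u_mem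
  have htop := h.top
  rw [← hR] at htop hcR ⊢
  refine Pool.Agent.Helper73.QW.gal_of_roots {w} (Set.finite_singleton w) htop ?_
  intro s hs
  rw [Set.mem_singleton_iff] at hs
  rw [hs]
  refine ⟨X ^ p ^ j - X - C (⟨w ^ p ^ j - w, hu⟩ : R), ?_, ?_, ?_⟩
  · rw [separable_def]
    have h1 : derivative (X ^ p ^ j - X - C (⟨w ^ p ^ j - w, hu⟩ : R) : R[X]) = -1 := by
      rw [derivative_sub, derivative_sub, derivative_X_pow, derivative_X, derivative_C,
        Nat.cast_pow, CharP.cast_eq_zero, zero_pow h.pos.ne', C_0, zero_mul, zero_sub, sub_zero]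
    rw [h1]
    exact isCoprime_one_right.neg_right
  · rw [map_sub, map_sub, map_pow, aeval_X, aeval_C]
    exact sub_self _
  · -- the roots are `w + v`
    have hcard := card_FQ p O j h.pos
    have hfin : Finite (FQ p O j) := Nat.finite_of_card_ne_zero (by
      rw [hcard]
      exact pow_ne_zero _ hp.out.ne_zero)
    have : Fintype (FQ p O j) := Fintype.ofFinite _
    obtain ⟨P, hP⟩ : ∃ P : K[X], P = (X ^ p ^ j - X - C (⟨w ^ p ^ j - w, hu⟩ : R) : R[X]).map
      (algebraMap R K) := ⟨_, rfl⟩
    have hP' : P = X ^ p ^ j - (X + C (w ^ p ^ j - w)) := by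
      rw [hP, Polynomial.map_sub, Polynomial.map_sub, Polynomial.map_pow, map_X, map_C]
      change X ^ p ^ j - X - C (w ^ p ^ j - w) = _
      ring
    have h1 : 1 < p ^ j := Nat.one_lt_pow h.pos.ne' hp.out.one_lt
    have hd : (X + C (w ^ p ^ j - w) : K[X]).degree < ((p ^ j : ℕ) : WithBot ℕ) := by
      rw [degree_X_add_C]
      exact_mod_cast h1
    have hmon : P.Monic := by
      rw [hP']
      exact monic_X_pow_sub hd
    have hdeg : P.natDegree = p ^ j := by
      rw [hP']
      exact natDegree_eq_of_degree_eq_some (degree_sub_eq_left_of_degree_lt (by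
        rw [degree_X_pow]
        exact hd) |>.trans (degree_X_pow _))
    rw [← hP]
    have hroots : (Finset.univ.image fun v : FQ p O j => w + algebraMap O K v) ⊆
        P.roots.toFinset := by
      intro z hz
      obtain ⟨v, -, rfl⟩ := Finset.mem_image.1 hz
      rw [Multiset.mem_toFinset, mem_roots hmon.ne_zero, IsRoot.def, hP', eval_sub, eval_pow,
        eval_X, eval_add, eval_X, eval_C, add_pow_char_pow, ← map_pow, mem_FQ.1 v.2]
      ring
    have h2 := Finset.card_le_card hroots
    rw [Finset.card_image_of_injective _ (fun v v' h =>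
      Subtype.ext ((algebraMap O K).injective (add_left_cancel h))), Finset.card_univ,
      ← Nat.card_eq_fintype_card, hcard, ← hdeg] at h2
    have h3 := h2.trans (Multiset.toFinset_card_le _)
    exact splits_iff_card_roots.2 (le_antisymm (card_roots' P) h3)

/-- an automorphism is a translation -/
theorem Ext.exists_shift (h : Ext p j A B x y w) (g : K ≃ₐ[base p j O x y w] K) :
    ∃ v : FQ p O j, g w = w + algebraMap O K v := by
  have hcK := charP_of p O K
  have h1 : g (w ^ p ^ j - w) = w ^ p ^ j - w := g.commutes ⟨_, u_mem⟩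
  have h2 : (g w - w) ^ p ^ j = g w - w := by
    rw [sub_pow_char_pow, ← map_pow]
    rw [map_sub] at h1
    linear_combination h1
  obtain ⟨v, hv⟩ := fq_algebraic (p := p) (O := O) h.pos h2
  exact ⟨v, by rw [hv]; ring⟩

omit hp [Algebra (ZMod p) O] [IsAlgClosed O] in
/-- two automorphisms which agree on `w` -/
theorem Ext.ext_aut (h : Ext p j A B x y w) {g g' : K ≃ₐ[base p j O x y w] K} (hg : g w = g' w) :
    g = g' := by
  have h1 : (g : K →ₐ[base p j O x y w] K) = g' := by
    refine AlgHom.ext fun z => ?_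
    have hz : z ∈ adjoin (base p j O x y w) {w} := by rw [h.top]; exact mem_top
    induction hz using adjoin_induction with
    | mem z hz =>
      rw [Set.mem_singleton_iff] at hz
      rw [hz]
      exact hg
    | algebraMap c => rw [AlgHom.commutes, AlgHom.commutes]
    | add x y _ _ hx hy => rw [map_add, map_add, hx, hy]
    | inv x _ hx => rw [map_inv₀, map_inv₀, hx]
    | mul x y _ _ hx hy => rw [map_mul, map_mul, hx, hy]
  exact AlgEquiv.ext fun z => DFunLike.congr_fun h1 z

/-- the translations are automorphisms -/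
theorem Ext.exists_aut (h : Ext p j A B x y w) (v : FQ p O j) :
    ∃ g : K ≃ₐ[base p j O x y w] K, g w = w + algebraMap O K v := by
  have hcK := charP_of p O K
  have hfd := h.galois.1
  obtain ⟨d, hd⟩ : ∃ d : K, d = algebraMap O K v := ⟨_, rfl⟩
  have hdQ : d ^ p ^ j = d := by
    rw [hd, ← map_pow, mem_FQ.1 v.2]
  have hu : (w + d) ^ p ^ j - (w + d) = w ^ p ^ j - w := by
    rw [add_pow_char_pow, hdQ]
    ring
  have hx' : (x : K) ∈ adjoin O {x, w + d} := subset_adjoin _ _ (by simp)
  have hw' : (w + d : K) ∈ adjoin O {x, w + d} := subset_adjoin _ _ (by simp)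
  have hi : AlgebraicIndependent O ![x, w + d] := by
    refine h.model.indep ?_ ?_
    · exact isAlgebraic_algebraMap (⟨x, hx'⟩ : adjoin O {x, w + d})
    · have h1 : w ∈ adjoin O {x, w + d} := by
        have := sub_mem hw' ((adjoin O {x, w + d}).algebraMap_mem (v : O))
        rwa [← hd, add_sub_cancel_right] at this
      exact isAlgebraic_algebraMap (⟨w, h1⟩ : adjoin O {x, w + d})
  have haev : ∀ z : K, aeval z (X ^ p ^ j - X : O[X]) = z ^ p ^ j - z := fun z => by
    rw [map_sub, map_pow, aeval_X]
  obtain ⟨φ, h1, h2, h3⟩ := h.model.exists_hom (y' := y) hi (by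
    rw [h.model.eqn, haev, haev, hu])
  have hfix : ∀ c : base p j O x y w, φ c = c := by
    rintro ⟨c, hc⟩
    change φ c = c
    change c ∈ adjoin O {x, y, w ^ p ^ j - w} at hc
    induction hc using adjoin_induction with
    | mem z hz =>
      rcases hz with rfl | rfl | rfl
      · exact h1
      · exact h2
      · rw [map_sub, map_pow, h3, hu]
    | algebraMap c => rw [AlgHom.commutes]
    | add x y _ _ hx hy => rw [map_add, hx, hy]
    | inv x _ hx => rw [map_inv₀, hx]
    | mul x y _ _ hx hy => rw [map_mul, hx, hy]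
  let φ' : K →ₐ[base p j O x y w] K := { φ.toRingHom with commutes' := hfix }
  refine ⟨AlgEquiv.ofBijective φ' φ'.bijective, ?_⟩
  show φ w = _
  rw [h3, hd]

theorem Ext.abelian (h : Ext p j A B x y w) : IsAbelianExt (base p j O x y w) K := by
  refine ⟨h.galois.1, h.galois.2, fun g g' => h.ext_aut ?_⟩
  obtain ⟨v, hv⟩ := h.exists_shift g
  obtain ⟨v', hv'⟩ := h.exists_shift g'
  have hc : ∀ (g : K ≃ₐ[base p j O x y w] K) (c : O), g (algebraMap O K c) = algebraMap O K c :=
    fun g c => g.commutes (algebraMap O (base p j O x y w) c)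
  rw [AlgEquiv.mul_apply, AlgEquiv.mul_apply, hv, hv', map_add, map_add, hv, hv', hc, hc]
  ring

end

end Pool.Agent.Helper73.CHA
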