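import Pool.Agent.Helper73.CHA.Main
import Pool.Agent.Helper73.SS.AddCover

/-! Project CHI, additive version. The field `K = O(x, y, w)`,
`y ^ 2 = x ^ 3 + A(L(w)) x + B(L(w))`, for a separable additive polynomial `L`, is an abelian extension
of `R = O(x, y, L(w))`, and the cyclic extensions `M ≠ R` of `R` in `K` are the fields `O(x, y, w')`,
`L(w) = c (w' ^ p - w')`, `c ∈ O`. -/

set_option autoImplicit false

namespace Pool.Agent.Helper73.CHA

open IntermediateField Polynomial Pool.Agent.Helper43.CH Pool.Agent.Helper43.AC7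
  Pool.Agent.Helper73.QX Pool.Agent.Helper73.SS

section

variable {O K : Type} [Field O] [IsAlgClosed O] [Field K] [Algebra O K] {p : ℕ}
  [hp : Fact p.Prime] [CharP O p] {A B : O[X]} {x y w : K}

/-- **Additive base changes.** `y ^ 2 = x ^ 3 + A(L(w)) x + B(L(w))`,
`L(w) = l 0 * w + l 1 * w ^ p + ⋯ + l e * w ^ p ^ e`. -/
theorem abelian_add {e : ℕ} (he : 0 < e) {l : ℕ → O} (hl0 : l 0 ≠ 0) (hle : l e ≠ 0)
    (h : IsModelL O (addP p (e + 1) l) A B x y w) :
    IsAbelianExt (adjoin O {x, y, addV p (e + 1) l w} : IntermediateField O K) K ∧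
    ∀ M : IntermediateField (adjoin O {x, y, addV p (e + 1) l w} : IntermediateField O K) K,
      IsCyclicExt (adjoin O {x, y, addV p (e + 1) l w} : IntermediateField O K) M → M = ⊥ ∨
        ∃ (c : O) (x' y' w' : M), c ≠ 0 ∧ (x' : K) = x ∧ (y' : K) = y ∧
          algebraMap O K c * ((w' : K) ^ p - w') = addV p (e + 1) l w ∧
          IsModelA O p (A.comp (C c * X)) (B.comp (C c * X)) x' y' w' := by
  classical
  let _ : Algebra (ZMod p) O := ZMod.algebra O p
  obtain ⟨u, hu⟩ : ∃ u, u = addV p (e + 1) l w := ⟨_, rfl⟩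
  have huR : addV p (e + 1) l w ∈ (adjoin O {x, y, u} : IntermediateField O K) := by
    rw [← hu]
    exact subset_adjoin _ _ (by simp)
  have heqn : y ^ 2 = x ^ 3 + aeval u A * x + aeval u B := by
    have h1 := h.eqn
    rw [aeval_addP, ← hu] at h1
    exact h1
  rw [← hu]
  have htop : adjoin (adjoin O {x, y, u} : IntermediateField O K) {w} = ⊤ := by
    rw [eq_top_iff]
    intro z _
    have h1 : adjoin O {x, y, w} ≤
        (adjoin (adjoin O {x, y, u} : IntermediateField O K) {w}).restrictScalars O := by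
      rw [adjoin_le_iff]
      rintro v (hv | hv | hv)
      · rw [hv]
        exact (adjoin (adjoin O {x, y, u} : IntermediateField O K) {w}).algebraMap_mem
          ⟨x, subset_adjoin _ _ (by simp)⟩
      · rw [hv]
        exact (adjoin (adjoin O {x, y, u} : IntermediateField O K) {w}).algebraMap_mem
          ⟨y, subset_adjoin _ _ (by simp)⟩
      · rw [hv]
        exact mem_adjoin_simple_self (adjoin O {x, y, u} : IntermediateField O K) _
    apply h1
    rw [h.gen]
    exact mem_top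
  obtain ⟨hfd, hgal⟩ := galois_add (p := p) hl0 hle _ huR htop
  obtain ⟨hab, hcyc⟩ := add_cyclic (p := p) hl0 hle he _ huR htop
  refine ⟨⟨hfd, hgal, hab⟩, fun M hM => ?_⟩
  rcases hcyc M hM with h1 | ⟨w', c', hc0, hw', hMw, hfr⟩
  · exact Or.inl h1
  right
  rw [← hu] at hw'
  have hck : algebraMap O K c' ≠ 0 := (_root_.map_ne_zero _).2 hc0
  have hcinv : algebraMap O K c'⁻¹ * (w' ^ p - w') = u := by
    rw [hw', map_inv₀, ← mul_assoc, inv_mul_cancel₀ hck, one_mul]
  have hxM : x ∈ M := M.algebraMap_mem ⟨x, subset_adjoin _ _ (by simp)⟩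
  have hyM : y ∈ M := M.algebraMap_mem ⟨y, subset_adjoin _ _ (by simp)⟩
  have hwM : w' ∈ M := by
    rw [hMw]
    exact mem_adjoin_simple_self _ _
  have huM : u ∈ M := M.algebraMap_mem ⟨u, subset_adjoin _ _ (by simp)⟩
  obtain ⟨g1, g2, g3⟩ := gens_of _ rfl M hMw hxM hyM huM hwM
  refine ⟨c'⁻¹, ⟨x, hxM⟩, ⟨y, hyM⟩, ⟨w', hwM⟩, inv_ne_zero hc0, rfl, rfl, hcinv, ?_, ?_, ?_⟩
  · -- independence
    have hu' : u ∈ adjoin O {x, w'} := by
      have hw'' : (w' : K) ∈ adjoin O {x, w'} := subset_adjoin _ _ (by simp)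
      rw [← hcinv]
      exact mul_mem (IntermediateField.algebraMap_mem _ _) (sub_mem (pow_mem hw'' p) hw'')
    have h2 : AlgebraicIndependent O ![x, w'] := by
      refine h.indep ?_ ?_
      · have hx' : (x : K) ∈ adjoin O {x, w'} := subset_adjoin _ _ (by simp)
        exact isAlgebraic_algebraMap (⟨x, hx'⟩ : adjoin O {x, w'})
      · obtain ⟨N, hN⟩ : ∃ N : IntermediateField O K, N = adjoin O {x, w'} := ⟨_, rfl⟩
        rw [← hN] at hu' ⊢
        obtain ⟨P, hP⟩ : ∃ P : N[X], P = (addP p (e + 1) l).map (algebraMap O N) -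
          C (⟨u, hu'⟩ : N) := ⟨_, rfl⟩
        refine ⟨P, ?_, ?_⟩
        · intro h0
          have h3 := congrArg natDegree h0
          rw [hP, natDegree_sub_C, natDegree_map, natDegree_addP hp.out.one_lt hle,
            natDegree_zero] at h3
          exact pow_ne_zero _ hp.out.ne_zero h3
        · have h3 : aeval w P = aeval w (addP p (e + 1) l) - u := by
            rw [hP, map_sub, aeval_map_algebraMap, aeval_C]
            rfl
          rw [h3, aeval_addP, ← hu, sub_self]
    let f : M →ₐ[O] K := M.val.restrictScalars O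
    refine (AlgHom.algebraicIndependent_iff f M.val.injective).1 ?_
    have h3 : f ∘ ![(⟨x, hxM⟩ : M), ⟨w', hwM⟩] = ![x, w'] := by
      funext i
      fin_cases i <;> rfl
    rw [h3]
    exact h2
  · -- the equation
    apply Subtype.ext
    let f : M →ₐ[O] K := M.val.restrictScalars O
    have h3 : ∀ P : O[X], ((aeval ((⟨w', hwM⟩ : M) ^ p - ⟨w', hwM⟩) P : M) : K) =
        aeval (w' ^ p - w') P := by
      intro P
      exact (aeval_algHom_apply f _ P).symm
    have h4 : ∀ P : O[X], aeval (w' ^ p - w') (P.comp (C c'⁻¹ * X)) = aeval u P := by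
      intro P
      rw [aeval_comp, map_mul, aeval_C, aeval_X, hcinv]
    change y ^ 2 = x ^ 3 + ((aeval ((⟨w', hwM⟩ : M) ^ p - ⟨w', hwM⟩) (A.comp (C c'⁻¹ * X)) : M) : K) *
      x + ((aeval ((⟨w', hwM⟩ : M) ^ p - ⟨w', hwM⟩) (B.comp (C c'⁻¹ * X)) : M) : K)
    rw [h3, h3, h4, h4, heqn]
  · -- generators
    rw [eq_top_iff, ← g3, adjoin_le_iff]
    have mw : (⟨w', hwM⟩ : M) ∈ adjoin O {(⟨x, hxM⟩ : M), ⟨y, hyM⟩, ⟨w', hwM⟩} :=
      subset_adjoin _ _ (by simp)
    have hcM : (⟨u, huM⟩ : M) = algebraMap O M c'⁻¹ * ((⟨w', hwM⟩ : M) ^ p - ⟨w', hwM⟩) :=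
      Subtype.ext hcinv.symm
    rintro s (rfl | rfl | hs | rfl)
    · exact subset_adjoin _ _ (by simp)
    · exact subset_adjoin _ _ (by simp)
    · rw [hs, hcM]
      exact mul_mem (IntermediateField.algebraMap_mem _ _) (sub_mem (pow_mem mw p) mw)
    · exact mw

/-- **Even additive base changes.** `A` and `B` are even. -/
theorem abelian_add_even {e : ℕ} (he : 0 < e) {l : ℕ → O} (hl0 : l 0 ≠ 0) (hle : l e ≠ 0)
    (h : IsModelL O (addP p (e + 1) l) A B x y w) (hA : A.natDegree ≤ 4) (hB : B.natDegree ≤ 6)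
    (hj : ∀ c d : O, C c * A ^ 3 = C d * B ^ 2 → c = 0 ∧ d = 0)
    (ha : A.comp (-X) = A) (hb : B.comp (-X) = B) :
    IsAbelianExt (adjoin O {x, y, addV p (e + 1) l w} : IntermediateField O K) K ∧
    ∀ M : IntermediateField (adjoin O {x, y, addV p (e + 1) l w} : IntermediateField O K) K,
      IsCyclicExt (adjoin O {x, y, addV p (e + 1) l w} : IntermediateField O K) M → M = ⊥ ∨
        ∃ (A' B' : O[X]) (x' y' w' : M), IsModelA O p A' B' x' y' w' ∧ A'.natDegree ≤ 4 ∧
          B'.natDegree ≤ 6 ∧ (∀ c d : O, C c * A' ^ 3 = C d * B' ^ 2 → c = 0 ∧ d = 0) ∧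
          A'.comp (-X) = A' ∧ B'.comp (-X) = B' := by
  obtain ⟨h1, h2⟩ := abelian_add he hl0 hle h
  refine ⟨h1, fun M hM => ?_⟩
  rcases h2 M hM with h3 | ⟨c, x', y', w', hc0, -, -, -, h3⟩
  · exact Or.inl h3
  · exact Or.inr ⟨_, _, x', y', w', h3, natDegree_scale hA _, natDegree_scale hB _,
      fun c' d' => indep_scale hj hc0 c' d', even_scale ha c, even_scale hb c⟩

/-- the coefficients of `w ^ Q + a * w` -/
def binom (j : ℕ) (a : O) (i : ℕ) : O := if i = 0 then a else if i = j then 1 else 0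

theorem addP_binom {j : ℕ} (hj : 0 < j) (a : O) :
    addP p (j + 1) (binom j a) = X ^ p ^ j + C a * X := by
  unfold addP
  rw [Finset.sum_range_succ, Finset.sum_eq_single 0]
  · rw [pow_zero, pow_one]
    unfold binom
    rw [if_pos rfl, if_neg hj.ne', if_pos rfl, C_1, one_mul, add_comm]
  · intro i hi hi0
    unfold binom
    rw [if_neg hi0, if_neg (Finset.mem_range.1 hi).ne, C_0, zero_mul]
  · intro h
    exact absurd (Finset.mem_range.2 hj) h

theorem addV_binom {j : ℕ} (hj : 0 < j) (a : O) (z : K) :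
    addV p (j + 1) (binom j a) z = z ^ p ^ j + algebraMap O K a * z := by
  rw [← aeval_addP, addP_binom hj, map_add, map_pow, aeval_X, map_mul, aeval_C, aeval_X]

/-- `y ^ 2 = x ^ 3 + A(w ^ Q - w) x + B(w ^ Q - w)` -/
theorem abelian_as' {j : ℕ} (hj0 : 0 < j) (h : IsModelL O (X ^ p ^ j - X) A B x y w) :
    IsAbelianExt (adjoin O {x, y, w ^ p ^ j - w} : IntermediateField O K) K ∧
    ∀ M : IntermediateField (adjoin O {x, y, w ^ p ^ j - w} : IntermediateField O K) K,
      IsCyclicExt (adjoin O {x, y, w ^ p ^ j - w} : IntermediateField O K) M → M = ⊥ ∨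
        ∃ (c : O) (x' y' w' : M), c ≠ 0 ∧ (x' : K) = x ∧ (y' : K) = y ∧
          algebraMap O K c * ((w' : K) ^ p - w') = w ^ p ^ j - w ∧
          IsModelA O p (A.comp (C c * X)) (B.comp (C c * X)) x' y' w' := by
  have h1 : addP p (j + 1) (binom j (-1 : O)) = X ^ p ^ j - X := by
    rw [addP_binom hj0, C_neg, C_1, neg_one_mul, sub_eq_add_neg]
  have h2 : addV p (j + 1) (binom j (-1 : O)) w = w ^ p ^ j - w := by
    rw [addV_binom hj0, map_neg, map_one, neg_one_mul, sub_eq_add_neg]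
  rw [← h1] at h
  have h3 := abelian_add (p := p) hj0 (by
    unfold binom
    rw [if_pos rfl]
    exact neg_ne_zero.2 one_ne_zero) (by
    unfold binom
    rw [if_neg hj0.ne', if_pos rfl]
    exact one_ne_zero) h
  rw [h2] at h3
  exact h3

/-- `y ^ 2 = x ^ 3 + A(w ^ Q + w) x + B(w ^ Q + w)` -/
theorem abelian_plus {j : ℕ} (hj0 : 0 < j) (h : IsModelL O (X ^ p ^ j + X) A B x y w) :
    IsAbelianExt (adjoin O {x, y, w ^ p ^ j + w} : IntermediateField O K) K ∧
    ∀ M : IntermediateField (adjoin O {x, y, w ^ p ^ j + w} : IntermediateField O K) K,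
      IsCyclicExt (adjoin O {x, y, w ^ p ^ j + w} : IntermediateField O K) M → M = ⊥ ∨
        ∃ (c : O) (x' y' w' : M), c ≠ 0 ∧ (x' : K) = x ∧ (y' : K) = y ∧
          algebraMap O K c * ((w' : K) ^ p - w') = w ^ p ^ j + w ∧
          IsModelA O p (A.comp (C c * X)) (B.comp (C c * X)) x' y' w' := by
  have h1 : addP p (j + 1) (binom j (1 : O)) = X ^ p ^ j + X := by
    rw [addP_binom hj0, C_1, one_mul]
  have h2 : addV p (j + 1) (binom j (1 : O)) w = w ^ p ^ j + w := by
    rw [addV_binom hj0, map_one, one_mul]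
  rw [← h1] at h
  have h3 := abelian_add (p := p) hj0 (by
    unfold binom
    rw [if_pos rfl]
    exact one_ne_zero) (by
    unfold binom
    rw [if_neg hj0.ne', if_pos rfl]
    exact one_ne_zero) h
  rw [h2] at h3
  exact h3

/-- The `Q`-Frobenius endomorphism of `K` and the automorphisms of `K` over `R = O(x, y, w ^ Q + w)`:
`φ g = g ^ (- 1) φ`. -/
theorem frob_plus {j : ℕ} (hj : 0 < j) (h : IsModelL O (X ^ p ^ j + X) A B x y w)
    (φ : K →ₐ[O] K) (hx : φ x = x ^ p ^ j) (hy : φ y = y ^ p ^ j) (hw : φ w = w ^ p ^ j)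
    (g : K ≃ₐ[(adjoin O {x, y, w ^ p ^ j + w} : IntermediateField O K)] K) (z : K) :
    φ (g z) = g.symm (φ z) := by
  have hcK : CharP K p := charP_of_injective_algebraMap (algebraMap O K).injective p
  have hgx : ∀ g : K ≃ₐ[(adjoin O {x, y, w ^ p ^ j + w} : IntermediateField O K)] K, g x = x :=
    fun g => g.commutes ⟨x, subset_adjoin _ _ (by simp)⟩
  have hgy : ∀ g : K ≃ₐ[(adjoin O {x, y, w ^ p ^ j + w} : IntermediateField O K)] K, g y = y :=
    fun g => g.commutes ⟨y, subset_adjoin _ _ (by simp)⟩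
  have hgu : g (w ^ p ^ j + w) = w ^ p ^ j + w :=
    g.commutes ⟨w ^ p ^ j + w, subset_adjoin _ _ (by simp)⟩
  have hgO : ∀ (g : K ≃ₐ[(adjoin O {x, y, w ^ p ^ j + w} : IntermediateField O K)] K) (c : O),
      g (algebraMap O K c) = algebraMap O K c := fun g c =>
    g.commutes (algebraMap O (adjoin O {x, y, w ^ p ^ j + w} : IntermediateField O K) c)
  -- `g w = w + d`, `d ^ Q = - d`
  obtain ⟨d, hd⟩ : ∃ d, d = g w - w := ⟨_, rfl⟩
  have hgw : g w = w + d := by rw [hd]; ring
  have hdQ : d ^ p ^ j = -d := by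
    rw [map_add, map_pow, hgw, add_pow_char_pow] at hgu
    linear_combination hgu
  have hint : IsIntegral O d := by
    refine isAlgebraic_iff_isIntegral.1 ⟨X ^ p ^ j + X, ?_, ?_⟩
    · intro h0
      have h1 := congrArg (fun P => P.coeff 1) h0
      have h2 : p ^ j ≠ 1 := (Nat.one_lt_pow hj.ne' hp.out.one_lt).ne'
      simp only [coeff_add, coeff_X_pow, coeff_X_one, coeff_zero] at h1
      rw [if_neg (Ne.symm h2), zero_add] at h1
      exact one_ne_zero h1
    · rw [map_add, map_pow, aeval_X, hdQ]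
      ring
  have hmem : d ∈ IntermediateField.adjoin O {d} := IntermediateField.mem_adjoin_simple_self O _
  have := IntermediateField.isAlgebraic_adjoin_simple hint
  rw [IntermediateField.eq_bot_of_isAlgClosed_of_isAlgebraic (IntermediateField.adjoin O {d}),
    IntermediateField.mem_bot] at hmem
  obtain ⟨v, hv⟩ := hmem
  have hgs : g.symm w = w - d := by
    apply g.injective
    rw [AlgEquiv.apply_symm_apply, map_sub, hgw, ← hv, hgO, add_sub_cancel_right]
  let g' : K →ₐ[O] K := (g : K →ₐ[(adjoin O {x, y, w ^ p ^ j + w} : IntermediateField O K)]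
    K).restrictScalars O
  let gs : K →ₐ[O] K := (g.symm : K →ₐ[(adjoin O {x, y, w ^ p ^ j + w} : IntermediateField O K)]
    K).restrictScalars O
  have key : φ.comp g' = gs.comp φ := by
    refine Pool.Agent.Helper75.QC.hom_ext {x, y, w} h.gen _ _ ?_
    rintro s (hs | hs | hs)
    · rw [hs]
      show φ (g x) = g.symm (φ x)
      rw [hgx, hx, map_pow, hgx]
    · rw [hs]
      show φ (g y) = g.symm (φ y)
      rw [hgy, hy, map_pow, hgy]
    · rw [Set.mem_singleton_iff] at hs
      rw [hs]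
      show φ (g w) = g.symm (φ w)
      rw [hgw, map_add, hw, map_pow, hgs, sub_pow_char_pow, hdQ, ← hv, AlgHom.commutes]
      ring
  exact DFunLike.congr_fun key z

end

end Pool.Agent.Helper73.CHA
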