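import Pool.Agent.Helper73.CHA.Abel

/-! Project CHI, additive version. The cyclic extensions `M` of `R = O(x, y, w ^ Q - w)` in
`K = O(x, y, w)`. -/

set_option autoImplicit false

namespace Pool.Agent.Helper73.CHA

open IntermediateField Polynomial Pool.Agent.Helper43.CH Pool.Agent.Helper43.AC7
  Pool.Agent.Helper73.QX

section

variable {p : ℕ} [hp : Fact p.Prime] {O : Type} [Field O] [Algebra (ZMod p) O] [IsAlgClosed O]
  {j : ℕ} {K : Type} [Field K] [Algebra O K] {A B : O[X]} {x y w : K}

/-- the linear form of a cyclic extension -/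
theorem Ext.exists_generator (h : Ext p j A B x y w) (M : IntermediateField (base p j O x y w) K)
    (hM : IsCyclicExt (base p j O x y w) M) : M = ⊥ ∨ ∃ c ∈ FQ p O j, c ≠ 0 ∧
      M = adjoin (base p j O x y w) {tr p j (algebraMap O K c * w)} := by
  classical
  have hcK := charP_of p O K
  obtain ⟨hfd, hgal, hab⟩ := h.abelian
  obtain ⟨hMgal, hres, hsurj⟩ := Pool.Agent.Helper75.WC.exists_restrict hab M
  have hcyc : IsCyclic (M ≃ₐ[base p j O x y w] M) := hM
  have hcO : ∀ (g : K ≃ₐ[base p j O x y w] K) (c : O), g (algebraMap O K c) = algebraMap O K c :=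
    fun g c => g.commutes (algebraMap O (base p j O x y w) c)
  choose res hres using hres
  choose aut haut using fun v => h.exists_aut v
  have hres_eq : ∀ g g' : K ≃ₐ[base p j O x y w] K, (∀ a : M, g a = g' a) → res g = res g' := by
    intro g g' hg
    refine AlgEquiv.ext fun a => Subtype.ext ?_
    rw [hres, hres, hg]
  have hres_mul : ∀ g g' : K ≃ₐ[base p j O x y w] K, res (g * g') = res g * res g' := by
    intro g g'
    refine AlgEquiv.ext fun a => Subtype.ext ?_
    rw [AlgEquiv.mul_apply, hres, hres, hres, AlgEquiv.mul_apply]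
  have hres_one : res 1 = 1 := by
    refine AlgEquiv.ext fun a => Subtype.ext ?_
    rw [hres]
    rfl
  -- the exponent
  have hpow : ∀ g : K ≃ₐ[base p j O x y w] K, g ^ p = 1 := by
    intro g
    obtain ⟨v, hv⟩ := h.exists_shift g
    have key : ∀ n : ℕ, (g ^ n) w = w + n * algebraMap O K v := by
      intro n
      induction n with
      | zero => simp
      | succ n ih =>
        rw [pow_succ', AlgEquiv.mul_apply, ih, map_add, map_mul, map_natCast, hv, hcO]
        push_cast
        ring
    refine h.ext_aut ?_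
    rw [key, CharP.cast_eq_zero, zero_mul, add_zero]
    rfl
  have hpowC : ∀ g : M ≃ₐ[base p j O x y w] M, g ^ p = 1 := by
    intro g
    obtain ⟨g', hg'⟩ := hsurj g
    have h1 : g = res g' := AlgEquiv.ext fun a => Subtype.ext (by rw [hres, hg'])
    have h2 : ∀ n : ℕ, res (g' ^ n) = res g' ^ n := by
      intro n
      induction n with
      | zero => rw [pow_zero, pow_zero, hres_one]
      | succ n ih => rw [pow_succ, pow_succ, hres_mul, ih]
    rw [h1, ← h2, hpow, hres_one]
  have hfdM : FiniteDimensional (base p j O x y w) M := inferInstance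
  have hfinC : Finite (M ≃ₐ[base p j O x y w] M) := inferInstance
  have hcardM : Nat.card (M ≃ₐ[base p j O x y w] M) = Module.finrank (base p j O x y w) M :=
    IsGalois.card_aut_eq_finrank _ _
  have hdvd : Nat.card (M ≃ₐ[base p j O x y w] M) ∣ p := by
    rw [← IsCyclic.exponent_eq_card]
    exact Monoid.exponent_dvd_of_forall_pow_eq_one hpowC
  rcases (Nat.dvd_prime hp.out).1 hdvd with h1 | h1
  · left
    rw [h1] at hcardM
    exact finrank_eq_one_iff.1 hcardM.symm
  right
  -- the linear form
  have hcZ : Nat.card (Multiplicative (ZMod p)) = p := by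
    rw [Nat.card_congr Multiplicative.toAdd, Nat.card_zmod]
  let θ : (M ≃ₐ[base p j O x y w] M) ≃* Multiplicative (ZMod p) := mulEquivOfPrimeCardEq h1 hcZ
  have haut_add : ∀ v v' : FQ p O j, aut (v + v') = aut v * aut v' := by
    intro v v'
    refine h.ext_aut ?_
    rw [AlgEquiv.mul_apply, haut, haut, map_add, haut, hcO]
    change w + algebraMap O K ((v : O) + v') = _
    rw [map_add]
    ring
  have haut_zero : aut 0 = 1 := by
    refine h.ext_aut ?_
    rw [haut]
    change w + algebraMap O K (0 : O) = w
    rw [map_zero, add_zero]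
  let l : FQ p O j →+ ZMod p :=
    { toFun := fun v => Multiplicative.toAdd (θ (res (aut v)))
      map_zero' := by
        show Multiplicative.toAdd (θ (res (aut 0))) = 0
        rw [haut_zero, hres_one, map_one]
        rfl
      map_add' := fun v v' => by
        show Multiplicative.toAdd (θ (res (aut (v + v')))) = _
        rw [haut_add, hres_mul, map_mul]
        rfl }
  obtain ⟨c, hc, hcl⟩ := exists_form h.pos (l.toZModLinearMap p)
  obtain ⟨w', hw'⟩ : ∃ w' : K, w' = tr p j (algebraMap O K c * w) := ⟨_, rfl⟩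
  have hshift : ∀ v : FQ p O j, aut v w' = w' + algebraMap O K (em p O O (l v)) := by
    intro v
    have h2 : aut v w' = tr p j (aut v (algebraMap O K c * w)) := by
      rw [hw']
      exact tr_map p j (aut v : K →+* K) _
    have h3 : algebraMap O K (em p O O (l v)) = tr p j (algebraMap O K (c * v)) := by
      rw [← tr_map p j (algebraMap O K)]
      exact congrArg (algebraMap O K) (hcl v)
    rw [h2, h3, map_mul, haut, hcO, mul_add, tr_add, ← hw', map_mul]
  have hmemM : ∀ g : K ≃ₐ[base p j O x y w] K, g ∈ M.fixingSubgroup ↔ g w' = w' := by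
    intro g
    obtain ⟨v, hv⟩ := h.exists_shift g
    have hg : g = aut v := h.ext_aut (by rw [hv, haut])
    rw [hg, hshift]
    have h2 : aut v ∈ M.fixingSubgroup ↔ res (aut v) = 1 := by
      rw [IntermediateField.mem_fixingSubgroup_iff]
      constructor
      · intro h3
        refine AlgEquiv.ext fun a => Subtype.ext ?_
        rw [hres, h3 a a.2]
        rfl
      · intro h3 a ha
        have h4 := hres (aut v) ⟨a, ha⟩
        rw [h3] at h4
        exact h4.symm
    rw [h2]
    constructor
    · intro h3
      have h4 : l v = 0 := by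
        show Multiplicative.toAdd (θ (res (aut v))) = 0
        rw [h3, map_one]
        rfl
      rw [h4, map_zero, map_zero, add_zero]
    · intro h3
      have h4 : algebraMap O K (em p O O (l v)) = 0 := by
        have := congrArg (fun z => z - w') h3
        simpa using this
      have h5 : l v = 0 := by
        apply em_injective p O O
        rw [map_zero]
        exact (map_eq_zero _).1 h4
      apply θ.injective
      rw [map_one]
      exact Multiplicative.toAdd.injective h5
  refine ⟨c, hc, ?_, ?_⟩
  · rintro rfl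
    -- all automorphisms are trivial on `M`
    have h2 : w' = 0 := by
      rw [hw', map_zero, zero_mul]
      have h3 := tr_sub p j (0 : K) 0
      rw [sub_self, sub_self] at h3
      exact h3
    have h3 : ∀ g : K ≃ₐ[base p j O x y w] K, g ∈ M.fixingSubgroup := by
      intro g
      rw [hmemM, h2, map_zero]
    have h4 : Subsingleton (M ≃ₐ[base p j O x y w] M) := by
      refine ⟨fun g g' => AlgEquiv.ext fun a => Subtype.ext ?_⟩
      obtain ⟨g1, hg1⟩ := hsurj g
      obtain ⟨g2, hg2⟩ := hsurj g'
      rw [hg1, hg2, (IntermediateField.mem_fixingSubgroup_iff _ _).1 (h3 g1) a a.2,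
        (IntermediateField.mem_fixingSubgroup_iff _ _).1 (h3 g2) a a.2]
    have h5 : Nat.card (M ≃ₐ[base p j O x y w] M) = 1 := Nat.card_unique
    rw [h1] at h5
    exact hp.out.one_lt.ne' h5
  · rw [← hw']
    have h2 : M.fixingSubgroup = (adjoin (base p j O x y w) {w'}).fixingSubgroup := by
      ext g
      rw [hmemM]
      constructor
      · intro h3
        rw [IntermediateField.mem_fixingSubgroup_iff]
        intro z hz
        induction hz using adjoin_induction with
        | mem z hz =>
          rw [Set.mem_singleton_iff] at hz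
          rw [hz]
          exact h3
        | algebraMap c => exact g.commutes c
        | add x y _ _ hx hy => rw [map_add, hx, hy]
        | inv x _ hx => rw [map_inv₀, hx]
        | mul x y _ _ hx hy => rw [map_mul, hx, hy]
      · intro h3
        exact (IntermediateField.mem_fixingSubgroup_iff _ _).1 h3 w' (mem_adjoin_simple_self _ _)
    rw [← IsGalois.fixedField_fixingSubgroup M, h2, IsGalois.fixedField_fixingSubgroup]

omit [IsAlgClosed O] in
/-- the equation over the smaller field -/
theorem aeval_comp_inv {c : O} (hc : c ≠ 0) (A : O[X]) {E : Type} [Field E] [Algebra O E] (u : E) :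
    aeval (algebraMap O E c * u) (A.comp (C c⁻¹ * X)) = aeval u A := by
  rw [aeval_comp, map_mul, aeval_C, aeval_X, ← mul_assoc, ← map_mul, inv_mul_cancel₀ hc, map_one,
    one_mul]

/-- **The cyclic extensions.** -/
theorem Ext.cyclic (h : Ext p j A B x y w) (M : IntermediateField (base p j O x y w) K)
    (hM : IsCyclicExt (base p j O x y w) M) : M = ⊥ ∨ ∃ c ∈ FQ p O j, c ≠ 0 ∧
      ∃ x' y' w' : M, IsModelA O p (A.comp (C c⁻¹ * X)) (B.comp (C c⁻¹ * X)) x' y' w' := by
  classical
  have hcK := charP_of p O K
  rcases h.exists_generator M hM with h1 | ⟨c, hc, hc0, hMe⟩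
  · exact Or.inl h1
  right
  refine ⟨c, hc, hc0, ?_⟩
  obtain ⟨w', hw'⟩ : ∃ w' : K, w' = tr p j (algebraMap O K c * w) := ⟨_, rfl⟩
  rw [← hw'] at hMe
  have hck : algebraMap O K c ≠ 0 := (_root_.map_ne_zero _).2 hc0
  have hcQ : algebraMap O K c ^ p ^ j = algebraMap O K c := by
    rw [← map_pow, mem_FQ.1 hc]
  have hu : w' ^ p - w' = algebraMap O K c * (w ^ p ^ j - w) := by
    rw [hw', tr_pow, mul_pow, hcQ]
    ring
  have hxM : x ∈ M := M.algebraMap_mem ⟨x, x_mem⟩
  have hyM : y ∈ M := M.algebraMap_mem ⟨y, y_mem⟩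
  have hwM : w' ∈ M := by
    rw [hMe]
    exact mem_adjoin_simple_self _ _
  refine ⟨⟨x, hxM⟩, ⟨y, hyM⟩, ⟨w', hwM⟩, ?_, ?_, ?_⟩
  · -- independence
    have h2 : AlgebraicIndependent O ![x, w'] := by
      refine h.model.indep ?_ ?_
      · have hx' : (x : K) ∈ adjoin O {x, w'} := subset_adjoin _ _ (by simp)
        exact isAlgebraic_algebraMap (⟨x, hx'⟩ : adjoin O {x, w'})
      · have hw'' : (w' : K) ∈ adjoin O {x, w'} := subset_adjoin _ _ (by simp)
        obtain ⟨N, hN⟩ : ∃ N : IntermediateField O K, N = adjoin O {x, w'} := ⟨_, rfl⟩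
        rw [← hN] at hw'' ⊢
        obtain ⟨c', hc'⟩ : ∃ c' : N, (c' : K) = algebraMap O K c :=
          ⟨⟨algebraMap O K c, N.algebraMap_mem c⟩, rfl⟩
        refine ⟨∑ i ∈ Finset.range j, (C c' * X) ^ p ^ i - C ⟨w', hw''⟩, ?_, ?_⟩
        · intro h0
          have h1 := congrArg (fun P => P.coeff 1) h0
          simp only [coeff_sub, finsetSum_coeff, coeff_C_succ, sub_zero, coeff_zero] at h1
          rw [Finset.sum_eq_single 0] at h1
          · rw [pow_zero, pow_one, coeff_C_mul, coeff_X_one, mul_one] at h1
            apply hck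
            rw [← hc', h1]
            rfl
          · intro i _ hi
            rw [mul_pow, ← C_pow, coeff_C_mul, coeff_X_pow, if_neg, mul_zero]
            intro h2
            have h3 : 1 < p ^ i := Nat.one_lt_pow hi hp.out.one_lt
            omega
          · intro h2
            exact absurd (Finset.mem_range.2 h.pos) h2
        · rw [map_sub, map_sum, aeval_C]
          have h3 : ∑ i ∈ Finset.range j, aeval w ((C c' * X) ^ p ^ i : N[X]) = w' := by
            rw [hw']
            unfold tr
            refine Finset.sum_congr rfl fun i _ => ?_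
            rw [map_pow, map_mul, aeval_C, aeval_X]
            congr 2
          rw [h3]
          exact sub_self _
    let f : M →ₐ[O] K := M.val.restrictScalars O
    refine (AlgHom.algebraicIndependent_iff f M.val.injective).1 ?_
    have h3 : f ∘ ![(⟨x, hxM⟩ : M), ⟨w', hwM⟩] = ![x, w'] := by
      funext i
      fin_cases i <;> rfl
    rw [h3]
    exact h2
  · -- the equation
    apply Subtype.ext
    let f : M →ₐ[O] K := M.val.restrictScalars O
    have h3 : ∀ P : O[X], ((aeval ((⟨w', hwM⟩ : M) ^ p - ⟨w', hwM⟩) P : M) : K) =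
        aeval (w' ^ p - w') P := by
      intro P
      exact (aeval_algHom_apply f _ P).symm
    change y ^ 2 = x ^ 3 + ((aeval ((⟨w', hwM⟩ : M) ^ p - ⟨w', hwM⟩) (A.comp (C c⁻¹ * X)) : M) : K) *
      x + ((aeval ((⟨w', hwM⟩ : M) ^ p - ⟨w', hwM⟩) (B.comp (C c⁻¹ * X)) : M) : K)
    rw [h3, h3, hu, aeval_comp_inv hc0, aeval_comp_inv hc0, h.model.eqn, map_sub, map_pow, aeval_X]
  · -- generators
    obtain ⟨N, hN⟩ : ∃ N : IntermediateField O K, N = adjoin O {x, y, w'} := ⟨_, rfl⟩
    have hxN : x ∈ N := by rw [hN]; exact subset_adjoin _ _ (by simp)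
    have hyN : y ∈ N := by rw [hN]; exact subset_adjoin _ _ (by simp)
    have hwN : w' ∈ N := by rw [hN]; exact subset_adjoin _ _ (by simp)
    have huN : w ^ p ^ j - w ∈ N := by
      have h2 : w ^ p ^ j - w = (algebraMap O K c)⁻¹ * (w' ^ p - w') := by
        rw [hu, ← mul_assoc, inv_mul_cancel₀ hck, one_mul]
      rw [h2]
      exact mul_mem (inv_mem (N.algebraMap_mem c)) (sub_mem (pow_mem hwN p) hwN)
    have hRN : base p j O x y w ≤ N := by
      unfold base
      rw [adjoin_le_iff]
      rintro v (rfl | rfl | rfl)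
      · exact hxN
      · exact hyN
      · exact huN
    have hMN : M ≤ extendScalars hRN := by
      rw [hMe, adjoin_le_iff]
      rintro v hv
      rw [Set.mem_singleton_iff] at hv
      rw [hv]
      exact hwN
    rw [eq_top_iff]
    rintro ⟨z, hz⟩ -
    have hzN : z ∈ N := hMN hz
    let f : M →ₐ[O] K := M.val.restrictScalars O
    have h2 : (adjoin O {(⟨x, hxM⟩ : M), ⟨y, hyM⟩, ⟨w', hwM⟩}).map f = N := by
      rw [adjoin_map, hN]
      congr 1
      ext k
      constructor
      · rintro ⟨_, (rfl | rfl | rfl), rfl⟩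
        · exact Or.inl rfl
        · exact Or.inr (Or.inl rfl)
        · exact Or.inr (Or.inr rfl)
      · rintro (rfl | rfl | rfl)
        · exact ⟨⟨_, hxM⟩, Or.inl rfl, rfl⟩
        · exact ⟨⟨_, hyM⟩, Or.inr (Or.inl rfl), rfl⟩
        · exact ⟨⟨_, hwM⟩, Or.inr (Or.inr rfl), rfl⟩
    rw [← h2] at hzN
    obtain ⟨z', hz', hzz⟩ := hzN
    have h3 : z' = ⟨z, hz⟩ := Subtype.ext hzz
    rw [← h3]
    exact hz'

end

end Pool.Agent.Helper73.CHA
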