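import Pool.Agent.Helper73.CHA.Psi
import Pool.Agent.Helper43.CH.Fix

/-! Project CHI, additive version. The fixed field of `w ↦ w + 1` on `O(x, y, w)`,
`y ^ 2 = x ^ 3 + A(w ^ p - w) x + B(w ^ p - w)`. -/

set_option autoImplicit false

namespace Pool.Agent.Helper73.CHA

open IntermediateField Polynomial Pool.Agent.Helper43.CH Pool.Agent.Helper75.QC

section

variable {O E : Type} [Field O] [Field E] [Algebra O E] {p : ℕ} [hp : Fact p.Prime]

/-- **The fixed field.** -/
theorem IsModelA.fixed [CharP O p] {A B : O[X]} {x y w : E} (h : IsModelA O p A B x y w)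
    (s : E ≃ₐ[O] E) (hx : s x = x) (hy : s y = y) (hw : s w = w + 1) :
    fixedField (Subgroup.zpowers s) = adjoin O {x, y, w ^ p - w} := by
  have hc : CharP E p := charP_of_injective_algebraMap (algebraMap O E).injective p
  obtain ⟨F0, hF0⟩ : ∃ F0 : IntermediateField O E, F0 = adjoin O {x, y, w ^ p - w} := ⟨_, rfl⟩
  have hxF : x ∈ F0 := by rw [hF0]; exact subset_adjoin _ _ (by simp)
  have hyF : y ∈ F0 := by rw [hF0]; exact subset_adjoin _ _ (by simp)
  have huF : w ^ p - w ∈ F0 := by rw [hF0]; exact subset_adjoin _ _ (by simp)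
  rw [← hF0]
  have hsp := h.pow_eq_one s hx hy hw
  have hle : F0 ≤ fixedField (Subgroup.zpowers s) := by
    have h1 : ∀ z ∈ F0, s z = z := by
      intro z hz
      rw [hF0] at hz
      induction hz using adjoin_induction with
      | mem z hz =>
        rcases hz with rfl | rfl | rfl
        · exact hx
        · exact hy
        · rw [map_sub, map_pow, hw, add_pow_char, one_pow]
          ring
      | algebraMap c => rw [AlgEquiv.commutes]
      | add x y _ _ hx hy => rw [map_add, hx, hy]
      | inv x _ hx => rw [map_inv₀, hx]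
      | mul x y _ _ hx hy => rw [map_mul, hx, hy]
    intro z hz
    rintro ⟨g, hg⟩
    have h2 : Subgroup.zpowers s ≤ MulAction.stabilizer (E ≃ₐ[O] E) z :=
      Subgroup.zpowers_le.2 (h1 z hz)
    exact h2 hg
  -- the degree over `F0`
  have hfin : Finite (Subgroup.zpowers s) := by
    have h1 : IsOfFinOrder s := isOfFinOrder_iff_pow_eq_one.2 ⟨p, hp.out.pos, hsp⟩
    exact h1.finite_zpowers
  have hcard : Nat.card (Subgroup.zpowers s) = p := by
    rw [Nat.card_zpowers]
    refine orderOf_eq_prime hsp ?_
    rintro rfl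
    rw [AlgEquiv.one_apply] at hw
    exact one_ne_zero (left_eq_add.1 hw)
  have hgen : (adjoin F0 {w} : IntermediateField F0 E) = ⊤ := by
    rw [eq_top_iff]
    intro z _
    have h1 : adjoin O {x, y, w} ≤ (adjoin F0 {w}).restrictScalars O := by
      rw [adjoin_le_iff]
      rintro v (rfl | rfl | rfl)
      · exact (adjoin F0 {w}).algebraMap_mem ⟨_, hxF⟩
      · exact (adjoin F0 {w}).algebraMap_mem ⟨_, hyF⟩
      · exact mem_adjoin_simple_self F0 _
    apply h1
    rw [h.gen]
    exact mem_top
  have hP : aeval w (X ^ p - X - C (⟨w ^ p - w, huF⟩ : F0)) = 0 := by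
    simp only [map_sub, map_pow, aeval_X, aeval_C]
    exact sub_self _
  have hdeg : (X ^ p - X - C (⟨w ^ p - w, huF⟩ : F0)).natDegree = p := by
    have h1 := hp.out.one_lt
    rw [sub_sub]
    compute_degree!
    · have h2 : p ≠ 0 := hp.out.ne_zero
      have h3 : (1 : ℕ) ≠ p := h1.ne
      simp [h2, h3]
    · omega
  have hmon : (X ^ p - X - C (⟨w ^ p - w, huF⟩ : F0)).Monic := by
    have h1 := hp.out.one_lt
    rw [sub_sub]
    refine monic_X_pow_sub ?_
    refine (degree_add_le _ _).trans_lt (max_lt ?_ ?_)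
    · rw [degree_X]
      exact_mod_cast h1
    · exact degree_C_le.trans_lt (by exact_mod_cast hp.out.pos)
  have hint : IsIntegral F0 w := ⟨_, hmon, hP⟩
  have hfd : FiniteDimensional F0 E := by
    have h1 : FiniteDimensional F0 (adjoin F0 {w}) := adjoin.finiteDimensional hint
    rw [hgen] at h1
    exact Module.Finite.equiv (topEquiv (F := F0) (E := E)).toLinearEquiv
  have hle' : Module.finrank F0 E ≤ p := by
    have h1 : Module.finrank F0 (adjoin F0 {w}) = (minpoly F0 w).natDegree :=
      adjoin.finrank hint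
    rw [hgen, finrank_top'] at h1
    rw [h1, ← hdeg]
    exact natDegree_le_of_dvd (minpoly.dvd F0 w hP) hmon.ne_zero
  have hfix : Module.finrank (fixedField (Subgroup.zpowers s)) E = p := by
    have := Fintype.ofFinite (Subgroup.zpowers s)
    rw [← hcard, Nat.card_eq_fintype_card]
    exact FixedPoints.finrank_eq_card (Subgroup.zpowers s) E
  refine (eq_of_le_of_finrank_le' hle ?_).symm
  rw [hfix]
  exact hle'

/-- it is uniruled -/
theorem IsModelA.fixed_uniruled [IsAlgClosed O] [CharP O p] {A B : O[X]} {x y w : E}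
    (h : IsModelA O p A B x y w) (hA : A.natDegree ≤ 4) (hB : B.natDegree ≤ 6)
    (s : E ≃ₐ[O] E) (hx : s x = x) (hy : s y = y) (hw : s w = w + 1) :
    Uniruled O (fixedField (Subgroup.zpowers s)) 2 := by
  rw [h.fixed s hx hy hw]
  exact uniruled_rat hA hB h.eqn

end

end Pool.Agent.Helper73.CHA
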