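import Pool.Agent.Helper73.CHA.Fix
import Pool.Agent.Helper73.CHA.Cyc
import Pool.Agent.Helper43.CH.Main

/-! Project CHI, additive version. The fields `O(x, y, w)`,
`y ^ 2 = x ^ 3 + A(w ^ p - w) x + B(w ^ p - w)`, and `y ^ 2 = x ^ 3 + A(w ^ Q + w) x + B(w ^ Q + w)`. -/

set_option autoImplicit false

namespace Pool.Agent.Helper73.CHA

open IntermediateField Polynomial Pool.Agent.Helper43.AC7 Pool.Agent.Helper43.CH

section

variable {O E : Type} [Field O] [Field E] [Algebra O E]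

theorem IsModelL.trdeg {L A B : O[X]} {x y w : E} (h : IsModelL O L A B x y w) :
    Algebra.trdeg O E ≤ 2 := by
  have hx : x ∈ adjoin O {x, w} := subset_adjoin O _ (Or.inl rfl)
  have hw : w ∈ adjoin O {x, w} := subset_adjoin O _ (Or.inr rfl)
  have hy : IsAlgebraic (adjoin O {x, w}) y := by
    apply IsAlgebraic.of_pow (n := 2) (by norm_num)
    have hp : ∀ (G : O[X]) (v : E), v ∈ adjoin O {x, w} → aeval v G ∈ adjoin O {x, w} := by
      intro G v hv
      rw [aeval_eq_sum_range]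
      exact sum_mem fun i _ => (adjoin O {x, w}).smul_mem (pow_mem hv i)
    have h1 : y ^ 2 ∈ adjoin O {x, w} := by
      rw [h.eqn]
      exact add_mem (add_mem (pow_mem hx 3) (mul_mem (hp A _ (hp L _ hw)) hx))
        (hp B _ (hp L _ hw))
    exact isAlgebraic_algebraMap (⟨_, h1⟩ : adjoin O {x, w})
  have h1 : ∀ z : E, IsAlgebraic (adjoin O {x, w}) z := by
    intro z
    have hz : z ∈ adjoin O {x, y, w} := by rw [h.gen]; trivial
    have h2 : adjoin O {x, y, w} ≤
        (algebraicClosure (adjoin O {x, w}) E).restrictScalars O := by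
      rw [adjoin_le_iff]
      rintro a (ha | ha | ha)
      · rw [ha]
        exact mem_algebraicClosure_iff.2 (isAlgebraic_algebraMap (⟨x, hx⟩ : adjoin O {x, w}))
      · rw [ha]
        exact mem_algebraicClosure_iff.2 hy
      · rw [ha]
        exact mem_algebraicClosure_iff.2 (isAlgebraic_algebraMap (⟨w, hw⟩ : adjoin O {x, w}))
    exact mem_algebraicClosure_iff.1 (h2 hz)
  have h2 : Algebra.IsAlgebraic (Algebra.adjoin O {x, w}) E := isAlgebraic_adjoin_iff_top.1 ⟨h1⟩
  refine (Algebra.IsAlgebraic.trdeg_le_cardinalMk O {x, w}).trans ?_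
  refine (Cardinal.mk_insert_le).trans ?_
  rw [Cardinal.mk_singleton, one_add_one_eq_two]

theorem IsModelL.fg {L A B : O[X]} {x y w : E} (h : IsModelL O L A B x y w) :
    (⊤ : IntermediateField O E).FG := by
  classical
  refine ⟨({x, y, w} : Finset E), ?_⟩
  rw [← h.gen]
  simp

theorem IsModelA.trdeg {p : ℕ} {A B : O[X]} {x y w : E} (h : IsModelA O p A B x y w) :
    Algebra.trdeg O E ≤ 2 :=
  h.toL.trdeg

theorem IsModelA.fg {p : ℕ} {A B : O[X]} {x y w : E} (h : IsModelA O p A B x y w) :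
    (⊤ : IntermediateField O E).FG :=
  h.toL.fg

end

section

variable {O E : Type} [Field O] [Field E] [Algebra O E] {p : ℕ} [hp : Fact p.Prime] [CharP O p]
  {A B : O[X]} {x y w : E}

/-- the automorphism `w ↦ w + 1` -/
theorem IsModelA.exists_rot (h : IsModelA O p A B x y w) :
    ∃ s : E ≃ₐ[O] E, s x = x ∧ s y = y ∧ s w = w + 1 :=
  h.exists_shift

theorem IsModelA.pow_rot (h : IsModelA O p A B x y w) {s : E ≃ₐ[O] E} (hx : s x = x)
    (hy : s y = y) (hw : s w = w + 1) : s ^ p = 1 :=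
  h.pow_eq_one s hx hy hw

/-- the fixed field of the translation -/
theorem IsModelA.fixedField_le (h : IsModelA O p A B x y w) {s : E ≃ₐ[O] E} (hx : s x = x)
    (hy : s y = y) (hw : s w = w + 1) :
    fixedField (Subgroup.zpowers s) ≤ adjoin O {x, y, w ^ p - w} :=
  (h.fixed s hx hy hw).le

omit hp [CharP O p] in
/-- the fixed field of the translation is dominated by a product of curves -/
theorem IsModelA.isProduct [IsAlgClosed O] (h : IsModelA O p A B x y w) (hA : A.natDegree ≤ 4)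
    (hB : B.natDegree ≤ 6) :
    IsProduct O (adjoin O {x, y, w ^ p - w} : IntermediateField O E) :=
  Pool.Agent.Helper43.AC.isProduct_of_uniruled (uniruled_rat hA hB h.eqn)

/-- the endomorphisms which conjugate the translation to its inverse; `j = 0` is the case of even
`A` and `B` -/
theorem IsModelA.exists_conj (h : IsModelA O p A B x y w) {s : E ≃ₐ[O] E} (hx : s x = x)
    (hy : s y = y) (hw : s w = w + 1) (j : ℕ)
    (ha : ∀ i, A.coeff i ^ p ^ j = (-1) ^ i * A.coeff i)
    (hb : ∀ i, B.coeff i ^ p ^ j = (-1) ^ i * B.coeff i) :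
    ∃ ψ : E →ₐ[O] E, ∀ z, ψ (s z) = s.symm (ψ z) :=
  h.psi_frob ⟨1, one_ne_zero, fun i => by rw [one_pow, one_mul, ha],
    fun i => by rw [one_pow, one_mul, hb]⟩ s hx hy hw

end

section comp

variable {O : Type} [Field O]

theorem coeff_scale (A : O[X]) (c : O) (i : ℕ) :
    (A.comp (C c * X)).coeff i = A.coeff i * c ^ i :=
  comp_C_mul_X_coeff

theorem natDegree_scale {A : O[X]} {d : ℕ} (hA : A.natDegree ≤ d) (c : O) :
    (A.comp (C c * X)).natDegree ≤ d := by
  refine natDegree_comp_le.trans ?_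
  have h1 : (C c * X : O[X]).natDegree ≤ 1 := (natDegree_C_mul_le _ _).trans natDegree_X_le
  calc A.natDegree * (C c * X : O[X]).natDegree ≤ A.natDegree * 1 := Nat.mul_le_mul_left _ h1
    _ ≤ d := by rw [mul_one]; exact hA

theorem scale_scale (A : O[X]) {c : O} (hc : c ≠ 0) :
    (A.comp (C c * X)).comp (C c⁻¹ * X) = A := by
  rw [comp_assoc]
  have h1 : (C c * X : O[X]).comp (C c⁻¹ * X) = X := by
    rw [mul_comp, C_comp, X_comp, ← mul_assoc, ← C_mul, mul_inv_cancel₀ hc, C_1, one_mul]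
  rw [h1, comp_X]

/-- the `j`-invariant remains nonconstant -/
theorem indep_scale {A B : O[X]} (hj : ∀ c d : O, C c * A ^ 3 = C d * B ^ 2 → c = 0 ∧ d = 0)
    {e : O} (he : e ≠ 0) (c d : O)
    (h : C c * (A.comp (C e * X)) ^ 3 = C d * (B.comp (C e * X)) ^ 2) : c = 0 ∧ d = 0 := by
  apply hj
  have h1 := congrArg (fun P => P.comp (C e⁻¹ * X)) h
  simp only [mul_comp, pow_comp, C_comp] at h1
  rw [scale_scale A he, scale_scale B he] at h1
  exact h1

/-- an even polynomial remains even -/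
theorem even_scale {A : O[X]} (hA : A.comp (-X) = A) (c : O) :
    (A.comp (C c * X)).comp (-X) = A.comp (C c * X) := by
  have h1 : (C c * X : O[X]).comp (-X) = (-X : O[X]).comp (C c * X) := by
    rw [mul_comp, C_comp, X_comp, neg_comp, X_comp, mul_neg]
  rw [comp_assoc, h1, ← comp_assoc, hA]

end comp

section

variable {O K : Type} [Field O] [IsAlgClosed O] [Field K] [Algebra O K] {p : ℕ}
  [hp : Fact p.Prime] [CharP O p] {A B : O[X]} {x y w : K}

/-- **Abelian base changes.** `y ^ 2 = x ^ 3 + A(w ^ Q - w) x + B(w ^ Q - w)`, `Q = p ^ j`. -/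
theorem abelian_as {j : ℕ} (hj0 : 0 < j) (h : IsModelL O (X ^ p ^ j - X) A B x y w) :
    IsAbelianExt (adjoin O {x, y, w ^ p ^ j - w} : IntermediateField O K) K ∧
    ∀ M : IntermediateField (adjoin O {x, y, w ^ p ^ j - w} : IntermediateField O K) K,
      IsCyclicExt (adjoin O {x, y, w ^ p ^ j - w} : IntermediateField O K) M → M = ⊥ ∨
        ∃ (c : O) (x' y' w' : M), c ≠ 0 ∧ c ^ p ^ j = c ∧
          IsModelA O p (A.comp (C c * X)) (B.comp (C c * X)) x' y' w' := by
  let _ : Algebra (ZMod p) O := ZMod.algebra O p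
  have h1 : Ext p j A B x y w := ⟨h, hj0⟩
  refine ⟨h1.abelian, fun M hM => ?_⟩
  rcases h1.cyclic M hM with h2 | ⟨c, hc, hc0, x', y', w', h3⟩
  · exact Or.inl h2
  · refine Or.inr ⟨c⁻¹, x', y', w', inv_ne_zero hc0, ?_, h3⟩
    rw [inv_pow, mem_FQ.1 hc]

/-- **Hermitian base changes.** `y ^ 2 = x ^ 3 + A(w ^ Q + w) x + B(w ^ Q + w)`, `Q = p ^ j`, where the
coefficients of `A` and `B` are in the field with `Q` elements: `K = O(x, y, w)` is an abelian
extension of `R = O(x, y, w ^ Q + w)`, and the cyclic extensions `M ≠ R` of `R` in `K` are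
`O(x, y, w')`, `y ^ 2 = x ^ 3 + A'(w' ^ p - w') x + B'(w' ^ p - w')`, with `a ^ Q = (-1) ^ i * a` for the
coefficients `a` of `u ^ i` in `A'` and `B'`. -/
theorem abelian_herm {j : ℕ} (hj0 : 0 < j) (h : IsModelL O (X ^ p ^ j + X) A B x y w)
    (hA : A.natDegree ≤ 4) (hB : B.natDegree ≤ 6)
    (hj : ∀ c d : O, C c * A ^ 3 = C d * B ^ 2 → c = 0 ∧ d = 0)
    (ha : ∀ i, A.coeff i ^ p ^ j = A.coeff i) (hb : ∀ i, B.coeff i ^ p ^ j = B.coeff i) :
    IsAbelianExt (adjoin O {x, y, w ^ p ^ j + w} : IntermediateField O K) K ∧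
    ∀ M : IntermediateField (adjoin O {x, y, w ^ p ^ j + w} : IntermediateField O K) K,
      IsCyclicExt (adjoin O {x, y, w ^ p ^ j + w} : IntermediateField O K) M → M = ⊥ ∨
        ∃ (A' B' : O[X]) (x' y' w' : M), IsModelA O p A' B' x' y' w' ∧ A'.natDegree ≤ 4 ∧
          B'.natDegree ≤ 6 ∧ (∀ c d : O, C c * A' ^ 3 = C d * B' ^ 2 → c = 0 ∧ d = 0) ∧
          (∀ i, A'.coeff i ^ p ^ j = (-1) ^ i * A'.coeff i) ∧
          ∀ i, B'.coeff i ^ p ^ j = (-1) ^ i * B'.coeff i := by
  have hcK : CharP K p := charP_of_injective_algebraMap (algebraMap O K).injective p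
  have hQ1 : 1 < p ^ j := Nat.one_lt_pow hj0.ne' hp.out.one_lt
  obtain ⟨g, hg⟩ := IsAlgClosed.exists_pow_nat_eq (-1 : O) (n := p ^ j - 1) (by omega)
  have hg0 : g ≠ 0 := by
    rintro rfl
    rw [zero_pow (by omega)] at hg
    exact neg_ne_zero.2 one_ne_zero hg.symm
  have hgQ : g ^ p ^ j = -g := by
    have h1 : g ^ p ^ j = g ^ (p ^ j - 1) * g := by
      rw [← pow_succ, Nat.sub_add_cancel hQ1.le]
    rw [h1, hg, neg_one_mul]
  obtain ⟨d, hd⟩ : ∃ d : K, d = algebraMap O K g := ⟨_, rfl⟩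
  have hd0 : d ≠ 0 := by
    rw [hd]
    exact (_root_.map_ne_zero _).2 hg0
  have hdQ : d ^ p ^ j = -d := by
    rw [hd, ← map_pow, hgQ, map_neg]
  -- `u = w ^ Q + w = - g ((w / g) ^ Q - w / g)`
  have hu : (w / d) ^ p ^ j - w / d = -d⁻¹ * (w ^ p ^ j + w) := by
    rw [div_pow, hdQ]
    field_simp
    ring
  have hu' : w ^ p ^ j + w = algebraMap O K (-g) * ((w / d) ^ p ^ j - w / d) := by
    rw [hu, map_neg, ← hd, ← mul_assoc, neg_mul_neg, mul_inv_cancel₀ hd0, one_mul]
  have hbase : (adjoin O {x, y, w ^ p ^ j + w} : IntermediateField O K) =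
      adjoin O {x, y, (w / d) ^ p ^ j - w / d} := by
    apply le_antisymm
    · rw [adjoin_le_iff]
      rintro z (hz | hz | hz)
      · rw [hz]; exact subset_adjoin _ _ (by simp)
      · rw [hz]; exact subset_adjoin _ _ (by simp)
      · rw [hz, hu']
        exact mul_mem (IntermediateField.algebraMap_mem _ _) (subset_adjoin _ _ (by simp))
    · rw [adjoin_le_iff]
      rintro z (hz | hz | hz)
      · rw [hz]; exact subset_adjoin _ _ (by simp)
      · rw [hz]; exact subset_adjoin _ _ (by simp)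
      · rw [hz, hu, hd]
        refine mul_mem (neg_mem (inv_mem (IntermediateField.algebraMap_mem _ _)))
          (subset_adjoin _ _ (by simp))
  have hmodel : IsModelL O (X ^ p ^ j - X) (A.comp (C (-g) * X)) (B.comp (C (-g) * X)) x y
      (w / d) := by
    have hL : ∀ G : O[X], aeval (aeval (w / d) (X ^ p ^ j - X : O[X])) (G.comp (C (-g) * X)) =
        aeval (aeval w (X ^ p ^ j + X : O[X])) G := by
      intro G
      rw [aeval_comp, map_mul, aeval_C, aeval_X, map_sub, map_pow, aeval_X, ← hu', map_add,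
        map_pow, aeval_X]
    refine ⟨?_, ?_, ?_⟩
    · have hx' : (x : K) ∈ adjoin O {x, w / d} := subset_adjoin _ _ (by simp)
      have hw' : (w / d : K) ∈ adjoin O {x, w / d} := subset_adjoin _ _ (by simp)
      refine h.indep ?_ ?_
      · exact isAlgebraic_algebraMap (⟨x, hx'⟩ : adjoin O {x, w / d})
      · have h1 : w ∈ adjoin O {x, w / d} := by
          have h2 := mul_mem hw' ((adjoin O {x, w / d}).algebraMap_mem g)
          rwa [← hd, div_mul_cancel₀ _ hd0] at h2
        exact isAlgebraic_algebraMap (⟨w, h1⟩ : adjoin O {x, w / d})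
    · rw [hL, hL]
      exact h.eqn
    · rw [eq_top_iff, ← h.gen, adjoin_le_iff]
      rintro z (hz | hz | hz)
      · rw [hz]; exact subset_adjoin _ _ (by simp)
      · rw [hz]; exact subset_adjoin _ _ (by simp)
      · rw [hz]
        have h1 : w / d ∈ adjoin O {x, y, w / d} := subset_adjoin _ _ (by simp)
        have h2 := mul_mem h1 ((adjoin O {x, y, w / d}).algebraMap_mem g)
        rwa [← hd, div_mul_cancel₀ _ hd0] at h2
  obtain ⟨h1, h2⟩ := abelian_as hj0 hmodel
  rw [← hbase] at h1 h2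
  refine ⟨h1, fun M hM => ?_⟩
  rcases h2 M hM with h3 | ⟨c, x', y', w', hc0, hcQ, h3⟩
  · exact Or.inl h3
  · right
    have hcoef : ∀ G : O[X], (∀ i, G.coeff i ^ p ^ j = G.coeff i) → ∀ i,
        ((G.comp (C (-g) * X)).comp (C c * X)).coeff i ^ p ^ j =
          (-1) ^ i * ((G.comp (C (-g) * X)).comp (C c * X)).coeff i := by
      intro G hG i
      rw [coeff_scale, coeff_scale, mul_pow, mul_pow, hG, ← pow_mul, ← pow_mul, mul_comm i,
        pow_mul, pow_mul, hcQ]
      have h4 : (-g) ^ p ^ j = g := by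
        have h5 : (-g) ^ p ^ j = (0 - g) ^ p ^ j := by rw [zero_sub]
        rw [h5, sub_pow_char_pow, zero_pow (by positivity), hgQ, zero_sub, neg_neg]
      rw [h4, neg_pow g i]
      have h6 : ((-1 : O) ^ i) * ((-1) ^ i) = 1 := by
        rw [← mul_pow, neg_one_mul, neg_neg, one_pow]
      linear_combination (-(G.coeff i * g ^ i * c ^ i)) * h6
    refine ⟨_, _, x', y', w', h3, natDegree_scale (natDegree_scale hA _) _,
      natDegree_scale (natDegree_scale hB _) _, fun c' d' => ?_, hcoef A ha, hcoef B hb⟩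
    exact indep_scale (indep_scale hj (neg_ne_zero.2 hg0)) hc0 c' d'

/-- **Even base changes.** `y ^ 2 = x ^ 3 + A(w ^ Q - w) x + B(w ^ Q - w)`, `Q = p ^ j`, where `A` and `B`
are even: the cyclic extensions `M ≠ R` of `R = O(x, y, w ^ Q - w)` in `K = O(x, y, w)` are
`O(x, y, w')`, `y ^ 2 = x ^ 3 + A'(w' ^ p - w') x + B'(w' ^ p - w')`, with `A'` and `B'` even. -/
theorem abelian_even {j : ℕ} (hj0 : 0 < j) (h : IsModelL O (X ^ p ^ j - X) A B x y w)
    (hA : A.natDegree ≤ 4) (hB : B.natDegree ≤ 6)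
    (hj : ∀ c d : O, C c * A ^ 3 = C d * B ^ 2 → c = 0 ∧ d = 0)
    (ha : A.comp (-X) = A) (hb : B.comp (-X) = B) :
    IsAbelianExt (adjoin O {x, y, w ^ p ^ j - w} : IntermediateField O K) K ∧
    ∀ M : IntermediateField (adjoin O {x, y, w ^ p ^ j - w} : IntermediateField O K) K,
      IsCyclicExt (adjoin O {x, y, w ^ p ^ j - w} : IntermediateField O K) M → M = ⊥ ∨
        ∃ (A' B' : O[X]) (x' y' w' : M), IsModelA O p A' B' x' y' w' ∧ A'.natDegree ≤ 4 ∧
          B'.natDegree ≤ 6 ∧ (∀ c d : O, C c * A' ^ 3 = C d * B' ^ 2 → c = 0 ∧ d = 0) ∧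
          A'.comp (-X) = A' ∧ B'.comp (-X) = B' := by
  obtain ⟨h1, h2⟩ := abelian_as hj0 h
  refine ⟨h1, fun M hM => ?_⟩
  rcases h2 M hM with h3 | ⟨c, x', y', w', hc0, _, h3⟩
  · exact Or.inl h3
  · exact Or.inr ⟨_, _, x', y', w', h3, natDegree_scale hA _, natDegree_scale hB _,
      fun c' d' => indep_scale hj hc0 c' d', even_scale ha c, even_scale hb c⟩

end

end Pool.Agent.Helper73.CHA
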