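import Pool.Agent.Helper73.CHA.Model

/-! Project CHI, additive version. Endomorphisms `ψ` of `O(x, y, w)`,
`y ^ 2 = x ^ 3 + A(w ^ p - w) x + B(w ^ p - w)`, with `ψ s = s⁻¹ ψ` for the automorphism
`s : w ↦ w + 1`. -/

set_option autoImplicit false

namespace Pool.Agent.Helper73.CHA

open IntermediateField Polynomial Pool.Agent.Helper43.CH

section

variable {O E : Type} [Field O] [Field E] [Algebra O E] {p : ℕ} [hp : Fact p.Prime]

/-- The relation is checked on the generators. -/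
theorem IsModelA.anti {A B : O[X]} {x y w : E} (h : IsModelA O p A B x y w) (s : E ≃ₐ[O] E)
    (ψ : E →ₐ[O] E) (hx : ψ (s x) = s.symm (ψ x)) (hy : ψ (s y) = s.symm (ψ y))
    (hw : ψ (s w) = s.symm (ψ w)) (z : E) : ψ (s z) = s.symm (ψ z) := by
  have h1 : ψ.comp (s : E →ₐ[O] E) = (s.symm : E →ₐ[O] E).comp ψ := h.ext hx hy hw
  exact DFunLike.congr_fun h1 z

/-- the values of the inverse of `s` -/
theorem symm_values {x y w : E} (s : E ≃ₐ[O] E) (hx : s x = x) (hy : s y = y) (hw : s w = w + 1) :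
    s.symm x = x ∧ s.symm y = y ∧ s.symm w = w - 1 := by
  refine ⟨?_, ?_, ?_⟩
  · rw [AlgEquiv.symm_apply_eq, hx]
  · rw [AlgEquiv.symm_apply_eq, hy]
  · rw [AlgEquiv.symm_apply_eq, map_sub, map_one, hw, add_sub_cancel_right]

/-- The Weierstrass equation is isomorphic to its Frobenius twist composed with `u ↦ -u`:
`a ^ Q = (-1) ^ i * a` for the coefficients `a` of `u ^ i`, up to a change of `x` and `y`. -/
def IsHerm (p j : ℕ) (A B : O[X]) : Prop :=
  ∃ ν : O, ν ≠ 0 ∧ (∀ i, ν ^ 4 * A.coeff i ^ p ^ j = (-1) ^ i * A.coeff i) ∧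
    ∀ i, ν ^ 6 * B.coeff i ^ p ^ j = (-1) ^ i * B.coeff i

/-- the value at `-u ^ Q` of a polynomial whose coefficients satisfy `c * a ^ Q = (-1) ^ i * a` -/
theorem aeval_frob [CharP O p] {A : O[X]} {j : ℕ} {c : O}
    (hA : ∀ i, c * A.coeff i ^ p ^ j = (-1) ^ i * A.coeff i) (u : E) :
    aeval (-u ^ p ^ j) A = algebraMap O E c * (aeval u A) ^ p ^ j := by
  have hc : CharP E p := charP_of_injective_algebraMap (algebraMap O E).injective p
  rw [aeval_eq_sum_range, aeval_eq_sum_range, sum_pow_char_pow, Finset.mul_sum]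
  refine Finset.sum_congr rfl fun i _ => ?_
  have h1 := congrArg (algebraMap O E) (hA i)
  simp only [map_mul, map_pow, map_neg, map_one] at h1
  rw [Algebra.smul_def, Algebra.smul_def, mul_pow, ← mul_assoc, h1, neg_pow (u ^ p ^ j) i,
    ← pow_mul, ← pow_mul, mul_comm i]
  ring

/-- **The hermitian case.** -/
theorem IsModelA.psi_frob [CharP O p] {A B : O[X]} {x y w : E} (h : IsModelA O p A B x y w)
    {j : ℕ} (hAB : IsHerm p j A B) (s : E ≃ₐ[O] E) (hx : s x = x)
    (hy : s y = y) (hw : s w = w + 1) :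
    ∃ ψ : E →ₐ[O] E, ∀ z, ψ (s z) = s.symm (ψ z) := by
  have hc : CharP E p := charP_of_injective_algebraMap (algebraMap O E).injective p
  obtain ⟨ν, hν, hA, hB⟩ := hAB
  obtain ⟨n, hn⟩ : ∃ n : E, n = algebraMap O E ν := ⟨_, rfl⟩
  have hn0 : n ≠ 0 := by
    rw [hn]
    exact (_root_.map_ne_zero _).2 hν
  have hQ : 0 < p ^ j := pow_pos hp.out.pos j
  have hu : (-w ^ p ^ j) ^ p - (-w ^ p ^ j) = -(w ^ p - w) ^ p ^ j := by
    have h1 : (-w ^ p ^ j) ^ p = -(w ^ p ^ j) ^ p := by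
      have h2 : (-w ^ p ^ j) ^ p = (0 - w ^ p ^ j) ^ p := by rw [zero_sub]
      rw [h2, sub_pow_char, zero_pow hp.out.ne_zero, zero_sub]
    rw [h1, sub_pow_char_pow, ← pow_mul, ← pow_mul, mul_comm p]
    ring
  obtain ⟨S, hS⟩ : ∃ S : IntermediateField O E, S = adjoin O {n ^ 2 * x ^ p ^ j, -w ^ p ^ j} :=
    ⟨_, rfl⟩
  have hx' : n ^ 2 * x ^ p ^ j ∈ S := by rw [hS]; exact subset_adjoin _ _ (by simp)
  have hw' : -w ^ p ^ j ∈ S := by rw [hS]; exact subset_adjoin _ _ (by simp)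
  have hnS : n ∈ S := by rw [hn]; exact S.algebraMap_mem ν
  have hi : AlgebraicIndependent O ![n ^ 2 * x ^ p ^ j, -w ^ p ^ j] := by
    refine h.indep (IsAlgebraic.of_pow hQ ?_) (IsAlgebraic.of_pow hQ ?_)
    · rw [← hS]
      have h1 : x ^ p ^ j ∈ S := by
        have h2 := mul_mem (inv_mem (pow_mem hnS 2)) hx'
        rwa [← mul_assoc, inv_mul_cancel₀ (pow_ne_zero 2 hn0), one_mul] at h2
      exact isAlgebraic_algebraMap (⟨x ^ p ^ j, h1⟩ : S)
    · rw [← hS]
      have h1 : w ^ p ^ j ∈ S := by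
        have := neg_mem hw'
        rwa [neg_neg] at this
      exact isAlgebraic_algebraMap (⟨w ^ p ^ j, h1⟩ : S)
  obtain ⟨ψ, h1, h2, h3⟩ := h.exists_hom (y' := n ^ 3 * y ^ p ^ j) hi (by
    rw [hu, aeval_frob hA, aeval_frob hB, map_pow, map_pow, ← hn]
    have e1 : (n ^ 3 * y ^ p ^ j) ^ 2 = n ^ 6 * (y ^ 2) ^ p ^ j := by ring
    rw [e1, h.eqn, add_pow_char_pow, add_pow_char_pow, mul_pow]
    ring)
  obtain ⟨e1, e2, e3⟩ := symm_values s hx hy hw
  have hns : s.symm n = n := by rw [hn]; exact s.symm.commutes ν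
  refine ⟨ψ, h.anti s ψ ?_ ?_ ?_⟩
  · rw [hx, h1, map_mul, map_pow, map_pow, e1, hns]
  · rw [hy, h2, map_mul, map_pow, map_pow, e2, hns]
  · rw [hw, map_add, map_one, h3, map_neg, map_pow, e3, sub_pow_char_pow, one_pow]
    ring

/-- the value at `-u` of an even polynomial -/
theorem aeval_even {A : O[X]} (hA : A.comp (-X) = A) (u : E) : aeval (-u) A = aeval u A := by
  conv_rhs => rw [← hA]
  rw [aeval_comp, map_neg, aeval_X]

/-- **The symmetric case.** -/
theorem IsModelA.psi_even [CharP O p] (hp2 : p ≠ 2) {A B : O[X]} {x y w : E}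
    (h : IsModelA O p A B x y w) (hA : A.comp (-X) = A) (hB : B.comp (-X) = B) (s : E ≃ₐ[O] E)
    (hx : s x = x) (hy : s y = y) (hw : s w = w + 1) :
    ∃ ψ : E →ₐ[O] E, (∀ z, ψ (s z) = s.symm (ψ z)) ∧ ∀ z, ψ (ψ z) = z := by
  have hodd : Odd p := hp.out.odd_of_ne_two hp2
  have hu : (-w) ^ p - (-w) = -(w ^ p - w) := by
    rw [hodd.neg_pow]
    ring
  have hx' : (x : E) ∈ adjoin O {x, -w} := subset_adjoin _ _ (by simp)
  have hw' : (-w : E) ∈ adjoin O {x, -w} := subset_adjoin _ _ (by simp)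
  have hi : AlgebraicIndependent O ![x, -w] := by
    refine h.indep ?_ ?_
    · exact isAlgebraic_algebraMap (⟨x, hx'⟩ : adjoin O {x, -w})
    · have h1 : w ∈ adjoin O {x, -w} := by
        have := neg_mem hw'
        rwa [neg_neg] at this
      exact isAlgebraic_algebraMap (⟨w, h1⟩ : adjoin O {x, -w})
  obtain ⟨ψ, h1, h2, h3⟩ := h.exists_hom (y' := y) hi (by
    rw [hu, aeval_even hA, aeval_even hB, h.eqn])
  obtain ⟨e1, e2, e3⟩ := symm_values s hx hy hw
  refine ⟨ψ, h.anti s ψ ?_ ?_ ?_, fun z => ?_⟩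
  · rw [hx, h1, e1]
  · rw [hy, h2, e2]
  · rw [hw, map_add, map_one, h3, map_neg, e3]
    ring
  · have h4 : ψ.comp ψ = AlgHom.id O E := by
      refine h.ext ?_ ?_ ?_
      · rw [AlgHom.comp_apply, h1, h1]
        rfl
      · rw [AlgHom.comp_apply, h2, h2]
        rfl
      · rw [AlgHom.comp_apply, h3, map_neg, h3, neg_neg]
        rfl
    exact DFunLike.congr_fun h4 z

/-- **The automorphism `w ↦ w + 1`.** -/
theorem IsModelA.exists_shift [CharP O p] {A B : O[X]} {x y w : E}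
    (h : IsModelA O p A B x y w) : ∃ s : E ≃ₐ[O] E, s x = x ∧ s y = y ∧ s w = w + 1 := by
  have hc : CharP E p := charP_of_injective_algebraMap (algebraMap O E).injective p
  have key : ∀ c : E, c ∈ (algebraMap O E).range → c ^ p = c →
      ∃ φ : E →ₐ[O] E, φ x = x ∧ φ y = y ∧ φ w = w + c := by
    rintro _ ⟨c, rfl⟩ hcp
    have hu : (w + algebraMap O E c) ^ p - (w + algebraMap O E c) = w ^ p - w := by
      rw [add_pow_char, hcp]
      ring
    have hx' : (x : E) ∈ adjoin O {x, w + algebraMap O E c} := subset_adjoin _ _ (by simp)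
    have hw' : (w + algebraMap O E c : E) ∈ adjoin O {x, w + algebraMap O E c} :=
      subset_adjoin _ _ (by simp)
    have hi : AlgebraicIndependent O ![x, w + algebraMap O E c] := by
      refine h.indep ?_ ?_
      · exact isAlgebraic_algebraMap (⟨x, hx'⟩ : adjoin O {x, w + algebraMap O E c})
      · have h1 : w ∈ adjoin O {x, w + algebraMap O E c} := by
          have := sub_mem hw' ((adjoin O {x, w + algebraMap O E c}).algebraMap_mem c)
          rwa [add_sub_cancel_right] at this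
        exact isAlgebraic_algebraMap (⟨w, h1⟩ : adjoin O {x, w + algebraMap O E c})
    exact h.exists_hom (y' := y) hi (by rw [hu, h.eqn])
  obtain ⟨φ, h1, h2, h3⟩ := key 1 ⟨1, map_one _⟩ (one_pow _)
  obtain ⟨φ', h1', h2', h3'⟩ := key (-1) ⟨-1, by rw [map_neg, map_one]⟩ (by
    have h4 : ((-1 : E)) ^ p = (0 - 1) ^ p := by rw [zero_sub]
    rw [h4, sub_pow_char, zero_pow hp.out.ne_zero, one_pow, zero_sub])
  refine ⟨AlgEquiv.ofAlgHom φ φ' ?_ ?_, h1, h2, h3⟩
  · refine h.ext ?_ ?_ ?_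
    · rw [AlgHom.comp_apply, h1', h1]
      rfl
    · rw [AlgHom.comp_apply, h2', h2]
      rfl
    · rw [AlgHom.comp_apply, h3', map_add, h3, map_neg, map_one, add_neg_cancel_right]
      rfl
  · refine h.ext ?_ ?_ ?_
    · rw [AlgHom.comp_apply, h1, h1']
      rfl
    · rw [AlgHom.comp_apply, h2, h2']
      rfl
    · rw [AlgHom.comp_apply, h3, map_add, h3', map_one, neg_add_cancel_right]
      rfl

/-- the order of `s` -/
theorem IsModelA.pow_eq_one [CharP O p] {A B : O[X]} {x y w : E} (h : IsModelA O p A B x y w)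
    (s : E ≃ₐ[O] E) (hx : s x = x) (hy : s y = y) (hw : s w = w + 1) : s ^ p = 1 := by
  have hc : CharP E p := charP_of_injective_algebraMap (algebraMap O E).injective p
  have key : ∀ n : ℕ, (s ^ n) x = x ∧ (s ^ n) y = y ∧ (s ^ n) w = w + n := by
    intro n
    induction n with
    | zero => simp
    | succ n ih =>
      rw [pow_succ', AlgEquiv.mul_apply, AlgEquiv.mul_apply, AlgEquiv.mul_apply, ih.1, ih.2.1,
        ih.2.2, hx, hy, map_add, hw, map_natCast]
      refine ⟨rfl, rfl, ?_⟩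
      push_cast
      ring
  obtain ⟨e1, e2, e3⟩ := key p
  have h1 : ((s ^ p : E ≃ₐ[O] E) : E →ₐ[O] E) = AlgHom.id O E := by
    refine h.ext e1 e2 ?_
    change (s ^ p) w = w
    rw [e3, CharP.cast_eq_zero, add_zero]
  exact AlgEquiv.ext fun z => DFunLike.congr_fun h1 z

end

end Pool.Agent.Helper73.CHA
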